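import Pool.Agent.TH132.A.Split

/-!
# Hard Lefschetz and divisors on products
-/

set_option autoImplicit false

open CategoryTheory AlgebraicGeometry
open scoped TensorProduct

universe u v

namespace Pool.Agent.TH132.A

open Pool.Agent.H914 Pool.Agent.H914.VarClass Pool.Agent.H914.VarClass.Obj
  Pool.Agent.H914.WeilCohomology Pool.Agent.H281R3.HT Pool.Agent.W552

variable {k : Type u} [Field k] {𝒱 : VarClass k} {ops : CycleOps 𝒱}
  {W : WeilCohomology.{u, v} ops} {X U : 𝒱.Obj}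

lemma pair_zero {i : ℕ} {a : W.H X} (ha : a ∈ W.gr X i)
    (h : ∀ b ∈ W.gr X (2 * X.dim - i), W.tr X (a * b) = 0) : a = 0 := by
  apply W.nondeg
  intro b
  refine gr_induction (W.isInternal X) (p := fun b => W.tr X (a * b) = 0) ?_ ?_ b
  · intro l b hb
    by_cases hl : i + l = 2 * X.dim
    · exact h b (by rwa [show 2 * X.dim - i = l by omega])
    · exact W.tr_eq_zero (W.mul_mem ha hb) hl
  · intro b b' hb hb'
    rw [mul_add, map_add, hb, hb', add_zero]

lemma finrank_gr_le {i : ℕ} : Module.finrank W.K (W.gr X i) ≤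
    Module.finrank W.K (W.gr X (2 * X.dim - i)) := by
  rw [← Subspace.dual_finrank_eq (K := W.K) (V := W.gr X (2 * X.dim - i))]
  let φ : W.gr X i →ₗ[W.K] Module.Dual W.K (W.gr X (2 * X.dim - i)) :=
    ((bil W X).domRestrict₁₂ (W.gr X i) (W.gr X (2 * X.dim - i)))
  refine LinearMap.finrank_le_finrank_of_injective (f := φ) ?_
  rw [← LinearMap.ker_eq_bot, LinearMap.ker_eq_bot']
  rintro ⟨a, ha⟩ h0
  apply Subtype.ext
  refine pair_zero ha fun b hb => ?_
  have := congrArg (fun g => g ⟨b, hb⟩) h0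
  exact this

lemma finrank_gr_eq {i : ℕ} (hi : i ≤ 2 * X.dim) : Module.finrank W.K (W.gr X i) =
    Module.finrank W.K (W.gr X (2 * X.dim - i)) := by
  refine le_antisymm finrank_gr_le ?_
  have := finrank_gr_le (W := W) (X := X) (i := 2 * X.dim - i)
  rwa [show 2 * X.dim - (2 * X.dim - i) = i by omega] at this

lemma hardLefschetz_of_inj {D : X.Cycles} (hD : X.IsCyc 1 D)
    (h : ∀ i ≤ X.dim, ∀ a ∈ W.gr X i,
      (LinearMap.mulLeft W.K (W.cl X D) ^ (X.dim - i)) a = 0 → a = 0) :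
    HardLefschetz W X D := by
  intro i hi
  refine ⟨h i hi, ?_⟩
  have hmem : ∀ v ∈ W.gr X i, ((LinearMap.mulLeft W.K (W.cl X D)) ^ (X.dim - i)) v ∈
      W.gr X (2 * X.dim - i) := by
    intro v hv
    have := pow_L_mem (mulLeft_isHom (W := W) hD) hv (X.dim - i)
    rwa [show i + 2 * (X.dim - i) = 2 * X.dim - i by omega] at this
  set g : W.gr X i →ₗ[W.K] W.gr X (2 * X.dim - i) :=
    ((LinearMap.mulLeft W.K (W.cl X D)) ^ (X.dim - i)).restrict hmem with hg
  have hginj : Function.Injective g := by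
    rw [← LinearMap.ker_eq_bot, LinearMap.ker_eq_bot']
    rintro ⟨v, hv⟩ h0
    apply Subtype.ext
    exact h i hi v hv (congrArg Subtype.val h0)
  have hgsurj : Function.Surjective g :=
    (LinearMap.injective_iff_surjective_of_finrank_eq_finrank
      (finrank_gr_eq (by omega))).1 hginj
  intro b hb
  obtain ⟨⟨a, ha⟩, hab⟩ := hgsurj ⟨b, hb⟩
  exact ⟨a, ha, congrArg Subtype.val hab⟩

lemma tmul_zero_left {K A B : Type*} [Field K] [AddCommGroup A] [Module K A] [AddCommGroup B]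
    [Module K B] {a : A} {b : B} (hb : b ≠ 0) (h : a ⊗ₜ[K] b = 0) : a = 0 := by
  by_contra ha
  obtain ⟨φ, hφ⟩ : ∃ φ : Module.Dual K B, φ b ≠ 0 := by
    by_contra h0
    push Not at h0
    exact hb ((Module.forall_dual_apply_eq_zero_iff K b).1 h0)
  have h1 := congrArg (fun t => TensorProduct.rid K A (LinearMap.lTensor A φ t)) h
  simp only [LinearMap.lTensor_tmul, TensorProduct.rid_tmul, map_zero] at h1
  rcases smul_eq_zero.1 h1 with h2 | h2
  · exact hφ h2
  · exact ha h2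

lemma tmul_zero_right {K A B : Type*} [Field K] [AddCommGroup A] [Module K A] [AddCommGroup B]
    [Module K B] {a : A} {b : B} (ha : a ≠ 0) (h : a ⊗ₜ[K] b = 0) : b = 0 := by
  refine tmul_zero_left (K := K) (a := b) (b := a) ha ?_
  have := congrArg (TensorProduct.comm K A B) h
  rwa [TensorProduct.comm_tmul, map_zero] at this

lemma ext_one_inj (h1 : (1 : W.H U) ≠ 0) {a : W.H X} (h : ext W a (1 : W.H U) = 0) : a = 0 := by
  have h2 : kunnethMap (W.map (fst X U)) (W.map (snd X U)) (a ⊗ₜ[W.K] (1 : W.H U)) =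
      ext W a (1 : W.H U) := rfl
  refine tmul_zero_left (K := W.K) (b := (1 : W.H U)) h1 ?_
  apply (W.kunneth X U).1
  rw [h2, h, map_zero]

lemma one_ext_inj (h1 : (1 : W.H X) ≠ 0) {a : W.H U} (h : ext W (1 : W.H X) a = 0) : a = 0 := by
  have h2 : kunnethMap (W.map (fst X U)) (W.map (snd X U)) ((1 : W.H X) ⊗ₜ[W.K] a) =
      ext W (1 : W.H X) a := rfl
  refine tmul_zero_right (K := W.K) (a := (1 : W.H X)) h1 ?_
  apply (W.kunneth X U).1
  rw [h2, h, map_zero]

lemma e_pow_zero {D : X.Cycles} (hD : X.IsCyc 1 D) {m i : ℕ} (hm : 2 * X.dim < i + 2 * m)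
    {a : W.H X} (ha : a ∈ W.gr X i) : (LinearMap.mulLeft W.K (W.cl X D) ^ m) a = 0 := by
  have h1 := pow_L_mem (mulLeft_isHom (W := W) hD) ha m
  rw [W.gr_eq_bot X _ hm] at h1
  exact (Submodule.mem_bot _).1 h1

section

variable {D : X.Cycles} {B : U.Cycles} {C : (X.prod U).Cycles}

lemma mulLeft_eq (hB : U.IsCyc 1 B)
    (hDE : W.cl _ C = W.map (fst X U) (W.cl X D) + W.map (snd X U) (W.cl U B)) :
    LinearMap.mulLeft W.K (W.cl _ C) = extSum W (LinearMap.mulLeft W.K (W.cl X D))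
      (LinearMap.mulLeft W.K (W.cl U B)) := by
  rw [← mulLeft_prod hB, map_add, W.cl_pull, W.cl_pull, hDE]

lemma theta_pow (hB : U.IsCyc 1 B)
    (hDE : W.cl _ C = W.map (fst X U) (W.cl X D) + W.map (snd X U) (W.cl U B)) (m : ℕ)
    (a : W.H X) (b : W.H U) : (LinearMap.mulLeft W.K (W.cl _ C) ^ m) (ext W a b) =
      ∑ i ∈ Finset.range (m + 1), m.choose i •
        ext W ((LinearMap.mulLeft W.K (W.cl X D) ^ i) a)
          ((LinearMap.mulLeft W.K (W.cl U B) ^ (m - i)) b) := by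
  rw [mulLeft_eq hB hDE, extSum, (ext_commute _ _).add_pow, LinearMap.sum_apply]
  refine Finset.sum_congr rfl fun i _ => ?_
  rw [← map_pow, ← map_pow, extLR]
  have h1 : ((m.choose i : ℕ) : Module.End W.K (W.H (X.prod U))) =
      (m.choose i) • (1 : Module.End W.K (W.H (X.prod U))) := by
    rw [nsmul_eq_mul, mul_one]
  rw [h1, mul_smul_comm, mul_one, LinearMap.smul_apply, ext, extOp_tmul]
  rfl

lemma hl_left (hD : X.IsCyc 1 D) (hB : U.IsCyc 1 B)
    (hDE : W.cl _ C = W.map (fst X U) (W.cl X D) + W.map (snd X U) (W.cl U B))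
    (hHL : HardLefschetz W (X.prod U) C) (h1 : (1 : W.H U) ≠ 0) : HardLefschetz W X D := by
  refine hardLefschetz_of_inj hD fun i hi a ha h0 => ext_one_inj (U := U) h1 ?_
  have hmem : ext W a (1 : W.H U) ∈ W.gr (X.prod U) i := by
    have := W.mul_mem (W.map_mem (fst X U) ha) (W.map_mem (snd X U) (W.one_mem U))
    rwa [add_zero] at this
  refine (hHL i (by rw [dim_prod]; omega)).1 _ hmem ?_
  rw [theta_pow hB hDE]
  refine Finset.sum_eq_zero fun j hj => ?_
  have hj' := Finset.mem_range.1 hj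
  rw [dim_prod] at hj' ⊢
  by_cases h2 : X.dim - i ≤ j
  · rw [show j = (j - (X.dim - i)) + (X.dim - i) by omega, pow_add, Module.End.mul_apply, h0,
      map_zero]
    simp [ext]
  · rw [e_pow_zero (W := W) (X := U) hB (m := X.dim + U.dim - i - j) (i := 0) (by omega)
      (W.one_mem U)]
    simp [ext]

lemma hl_right (hB : U.IsCyc 1 B) (hD : X.IsCyc 1 D)
    (hDE : W.cl _ C = W.map (fst X U) (W.cl X D) + W.map (snd X U) (W.cl U B))
    (hHL : HardLefschetz W (X.prod U) C) (h1 : (1 : W.H X) ≠ 0) : HardLefschetz W U B := by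
  refine hardLefschetz_of_inj hB fun i hi a ha h0 => one_ext_inj (X := X) h1 ?_
  have hmem : ext W (1 : W.H X) a ∈ W.gr (X.prod U) i := by
    have := W.mul_mem (W.map_mem (fst X U) (W.one_mem X)) (W.map_mem (snd X U) ha)
    rwa [zero_add] at this
  refine (hHL i (by rw [dim_prod]; omega)).1 _ hmem ?_
  rw [theta_pow hB hDE]
  refine Finset.sum_eq_zero fun j hj => ?_
  have hj' := Finset.mem_range.1 hj
  rw [dim_prod] at hj' ⊢
  by_cases h2 : U.dim - i ≤ X.dim + U.dim - i - j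
  · rw [show X.dim + U.dim - i - j = (X.dim + U.dim - i - j - (U.dim - i)) + (U.dim - i) by omega,
      pow_add, Module.End.mul_apply, h0, map_zero]
    simp [ext]
  · rw [e_pow_zero (W := W) (X := X) hD (m := j) (i := 0) (by omega) (W.one_mem X)]
    simp [ext]

end

lemma cyc_zero {z : X.Cycles} (hz : X.IsCyc 0 z) : ∃ q : ℚ, z = q • X.V.fundCycle := by
  classical
  refine ⟨X.V.coeff z (genericPoint X.V.X), ?_⟩
  have key : ∀ x, x ≠ genericPoint X.V.X → X.V.coeff z x = 0 := by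
    intro x hx
    by_contra h0
    have h1 := hz x h0
    rw [Nat.cast_zero, Order.coheight_eq_zero] at h1
    apply hx
    have h2 : x ≤ genericPoint X.V.X := genericPoint_specializes x
    have h3 : genericPoint X.V.X ≤ x := h1 h2
    exact (Specializes.antisymm h3 h2).eq
  refine Finsupp.ext (α := X.V.X) (M := ℚ) fun x => ?_
  have h4 : X.V.coeff (X.V.coeff z (genericPoint X.V.X) • X.V.fundCycle) x =
      X.V.coeff z (genericPoint X.V.X) * X.V.coeff X.V.fundCycle x :=
    Finsupp.smul_apply (M := ℚ) (α := X.V.X) _ _ x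
  change X.V.coeff z x = X.V.coeff (X.V.coeff z (genericPoint X.V.X) • X.V.fundCycle) x
  rw [h4]
  by_cases hx : x = genericPoint X.V.X
  · subst hx
    rw [show X.V.coeff X.V.fundCycle (genericPoint X.V.X) = 1 from
      Finsupp.single_eq_same (M := ℚ) (α := X.V.X), mul_one]
  · rw [key x hx, show X.V.coeff X.V.fundCycle x = 0 from
      Finsupp.single_eq_of_ne (M := ℚ) (α := X.V.X) hx, mul_zero]

lemma div_split (hS : ClSplit W X U) {C : (X.prod U).Cycles} (hC : (X.prod U).IsCyc 1 C) :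
    ∃ (D : X.Cycles) (B : U.Cycles), X.IsCyc 1 D ∧ U.IsCyc 1 B ∧
      W.cl _ C = W.map (fst X U) (W.cl X D) + W.map (snd X U) (W.cl U B) := by
  have h1 := hS 1 C hC
  generalize W.cl _ C = t at h1
  induction h1 using AddSubmonoid.closure_induction with
  | zero => exact ⟨0, 0, SmVar.IsCyc.zero _ _, SmVar.IsCyc.zero _ _, by simp⟩
  | add x y _ _ hx hy =>
    obtain ⟨D, B, hD, hB, rfl⟩ := hx
    obtain ⟨D', B', hD', hB', rfl⟩ := hy
    refine ⟨D + D', B + B', SmVar.IsCyc.add hD hD', SmVar.IsCyc.add hB hB', ?_⟩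
    simp only [map_add]
    abel
  | mem w hw =>
    obtain ⟨i, j, x, y, hij, hx, hy, rfl⟩ := hw
    rw [W.cl_mul, W.cl_pull, W.cl_pull]
    obtain ⟨rfl, rfl⟩ | ⟨rfl, rfl⟩ : (i = 0 ∧ j = 1) ∨ (i = 1 ∧ j = 0) := by omega
    · obtain ⟨q, rfl⟩ := cyc_zero hx
      refine ⟨0, q • y, SmVar.IsCyc.zero _ _, SmVar.IsCyc.smul q hy, ?_⟩
      rw [W.cl_smul, W.cl_fund, W.cl_smul, map_zero, map_zero, zero_add, map_smul, map_one,
        map_smul, smul_mul_assoc, one_mul]
    · obtain ⟨q, rfl⟩ := cyc_zero hy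
      refine ⟨q • x, 0, SmVar.IsCyc.smul q hx, SmVar.IsCyc.zero _ _, ?_⟩
      rw [W.cl_smul, W.cl_fund, W.cl_smul, map_zero, map_zero, add_zero, map_smul, map_one,
        map_smul, mul_smul_comm, mul_one]

end Pool.Agent.TH132.A
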