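import Pool.Agent.W458.RK.Rank

/-!
# Powers of numbers of small rank
-/

set_option autoImplicit false

open Polynomial

namespace Pool.Agent.TH132.A

open Pool.Agent.W458.RK

/-- The algebraic numbers. -/
noncomputable abbrev QBar : IntermediateField ℚ ℂ := algebraicClosure ℚ ℂ

lemma lowRank_pow {E : Subfield ℂ} {r : ℕ} {ρ : ℂ} (h : LowRank E r ρ) (t : ℕ) :
    LowRank E r (ρ ^ t) := by
  obtain ⟨χ, h0, hρ, u, hu, hS⟩ := h
  have halg : IsAlgebraic ℚ ρ := ⟨χ, h0, hρ⟩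
  have halg' : IsAlgebraic ℚ (ρ ^ t) := halg.pow t
  refine ⟨minpoly ℚ (ρ ^ t), minpoly.ne_zero halg'.isIntegral, minpoly.aeval _ _, u, hu, ?_⟩
  intro z hz
  change aeval z (minpoly ℚ (ρ ^ t)) = 0 at hz
  have hzalg : IsAlgebraic ℚ z := ⟨_, minpoly.ne_zero halg'.isIntegral, hz⟩
  let ρ' : QBar := ⟨ρ, (mem_algebraicClosure_iff).2 halg⟩
  let z' : QBar := ⟨z, (mem_algebraicClosure_iff).2 hzalg⟩
  have h1 : minpoly ℚ (ρ' ^ t) = minpoly ℚ (ρ ^ t) := by
    rw [← minpoly.algebraMap_eq (algebraMap QBar ℂ).injective (ρ' ^ t)]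
    rfl
  have h2 : aeval z' (minpoly ℚ (ρ' ^ t)) = 0 := by
    apply (algebraMap QBar ℂ).injective
    rw [map_zero, ← aeval_algebraMap_apply, h1]
    exact hz
  have i1 : Algebra.IsAlgebraic ℚ QBar := algebraicClosure.isAlgebraic ℚ ℂ
  have i2 : IsAlgClosure ℚ QBar := algebraicClosure.isAlgClosure ℚ ℂ
  have i3 : Normal ℚ QBar := IsAlgClosure.normal ℚ QBar
  have hρ'alg : IsAlgebraic ℚ (ρ' ^ t) := i1.isAlgebraic _
  obtain ⟨σ₀, hσ₀⟩ := minpoly.exists_algEquiv_of_root hρ'alg h2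
  obtain ⟨σ, hσ⟩ : ∃ σ : QBar ≃ₐ[ℚ] QBar, σ (ρ' ^ t) = z' :=
    ⟨σ₀.symm, by rw [← hσ₀, AlgEquiv.symm_apply_apply]⟩
  have h3 : ((σ ρ' : QBar) : ℂ) ^ t = z := by
    have := congrArg (fun w : QBar => (w : ℂ)) hσ
    rw [map_pow] at this
    exact this
  rw [← h3]
  refine PowerIn.pow (hS _ ?_) t
  change aeval ((σ ρ' : QBar) : ℂ) χ = 0
  have h4 : aeval (σ ρ') χ = 0 := by
    rw [aeval_algEquiv, AlgHom.comp_apply]
    have : aeval ρ' χ = 0 := by
      apply (algebraMap QBar ℂ).injective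
      rw [map_zero, ← aeval_algebraMap_apply]
      exact hρ
    rw [this, map_zero]
  have h5 := congrArg (algebraMap QBar ℂ) h4
  rw [map_zero, ← aeval_algebraMap_apply] at h5
  exact h5

/-- The eigenvalues of the powers of an operator. -/
lemma eigenvaluesOfRank_pow {K V : Type*} [Field K] [IsAlgClosed K] [AddCommGroup V] [Module K V]
    [Module.Finite K V] {σ : K →+* ℂ} {E : Subfield ℂ} {r : ℕ} {G : Module.End K V}
    (h : EigenvaluesOfRank σ E r G) {t : ℕ} (ht : 0 < t) : EigenvaluesOfRank σ E r (G ^ t) := by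
  intro ν hν
  have h1 : ν ∈ spectrum K (G ^ t) := Module.End.hasEigenvalue_iff_mem_spectrum.1 hν
  rw [spectrum.map_pow_of_pos G ht] at h1
  obtain ⟨μ, hμ, rfl⟩ := h1
  have h2 := h μ (Module.End.hasEigenvalue_iff_mem_spectrum.2 hμ)
  rw [map_pow]
  exact lowRank_pow h2 t

end Pool.Agent.TH132.A
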