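import Pool.Agent.W458.RK.TDefs
import Pool.Agent.H447R3.DegDefs

/-!
# The conjecture D for the products with all varieties of small Frobenius rank: definitions
-/

set_option autoImplicit false

open CategoryTheory AlgebraicGeometry

universe u v

namespace Pool.Agent.TH132.A

open Pool.Agent.H914 Pool.Agent.H914.VarClass Pool.Agent.H914.VarClass.Obj
  Pool.Agent.H914.WeilCohomology Pool.Agent.H447 Pool.Agent.W534 Pool.Agent.W458.RK

/-- For **all** varieties `U` such that the eigenvalues of the Frobenius endomorphism on the
cohomology of `U` have rank at most `r` over `E`, and all `c ≤ dim (X × U)`: numerical and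
homological equivalence of cycles of codimension `c` on `X × U` coincide if and only if numerical
and homological equivalence of cycles of codimension `c - i` on `U` coincide for all `i ≤ c` such
that some cycle of codimension `i` on `X` is not homologically equivalent to zero. -/
def HomEqNumTimes {k : Type u} [Field k] {𝒱 : VarClass k} {ops : CycleOps 𝒱}
    {W : WeilCohomology.{u, v} ops} {p : ℕ} (Φ : FrobSystem W p) (σ : W.K →+* ℂ) (E : Subfield ℂ)
    (r : ℕ) (X : 𝒱.Obj) : Prop :=
  ∀ U : 𝒱.Obj, EigenvaluesOfRank σ E r (W.map (Φ.Fr U)).toLinearMap → ∀ c ≤ (X.prod U).dim,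
    (HomEqNumIn W (X.prod U) c ↔
      ∀ i ≤ c, (∃ x, X.IsCyc i x ∧ W.cl X x ≠ 0) → HomEqNumIn W U (c - i))

end Pool.Agent.TH132.A
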