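import Pool.Agent.TH132.A.HLf
import Pool.Agent.TH132.A.Pow
import Pool.Agent.W458.RK.Geo
import Pool.Agent.W458.RK.TDefs

/-!
# The algebraic classes on the products with varieties of small Frobenius rank
-/

set_option autoImplicit false

open CategoryTheory AlgebraicGeometry
open scoped TensorProduct

universe u v

namespace Pool.Agent.TH132.A

open Pool.Agent.H914 Pool.Agent.H914.VarClass Pool.Agent.H914.VarClass.Obj
  Pool.Agent.H914.WeilCohomology Pool.Agent.H281R3.HT Pool.Agent.W552 Pool.Agent.W534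
  Pool.Agent.W458.RK Pool.Agent.W458.MF

variable {k : Type u} [Field k] {𝒱 : VarClass k} {ops : CycleOps 𝒱}
  {W : WeilCohomology.{u, v} ops} {X U : 𝒱.Obj} {p : ℕ} {Φ : FrobSystem W p} {σ : W.K →+* ℂ}
  {E : Subfield ℂ} {r : ℕ}

lemma frob_pow_eq (U : 𝒱.Obj) (t : ℕ) :
    frob Φ U t = (W.map (Φ.Fr U)).toLinearMap ^ t := by
  apply LinearMap.ext
  intro x
  rw [frob_apply, W534.map_iter, Module.End.pow_apply]
  rfl

/-- The classes of cycles on `X × U` are combinations of products of classes of cycles on `X` and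
classes on `U`. -/
theorem span_of_tateTimes [IsAlgClosed W.K] (hT : TateTimes Φ σ E r X)
    (hU : EigenvaluesOfRank σ E r (W.map (Φ.Fr U)).toLinearMap) {c : ℕ} {z : (X.prod U).Cycles}
    (hz : (X.prod U).IsCyc c z) :
    W.cl _ z ∈ Submodule.span W.K {w | ∃ x y, AS W X x ∧ w = ext W x y} := by
  obtain ⟨a, b, ha, hb, hab, h1⟩ := frob_comm Φ (fst X U)
  obtain ⟨a', b', ha', hb', hab', h2⟩ := frob_comm Φ (snd X U)
  obtain ⟨s, hs, h3⟩ := Φ.cyc hz
  have h4 := frob_mul' Φ h3 (a * a')
  obtain ⟨x, hx⟩ := (W.kunneth X U).2 (W.cl _ z)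
  have hcomm : ∀ x : W.H X ⊗[W.K] W.H U,
      W.map (W534.iter (Φ.Fr (X.prod U)) (a * a' * s)) (kunnethMap (W.map (fst X U))
        (W.map (snd X U)) x) = kunnethMap (W.map (fst X U)) (W.map (snd X U))
          (TensorProduct.map (frob Φ X (b * (a' * s))) (frob Φ U (b' * (a * s))) x) := by
    intro x
    induction x using TensorProduct.induction_on with
    | zero => rw [map_zero, map_zero, map_zero, map_zero]
    | add x y hx hy => rw [map_add, map_add, hx, hy, map_add, map_add]
    | tmul x y =>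
      change W.map _ (W.map (fst X U) x * W.map (snd X U) y) =
        W.map (fst X U) (W.map (W534.iter (Φ.Fr X) (b * (a' * s))) x) *
          W.map (snd X U) (W.map (W534.iter (Φ.Fr U) (b' * (a * s))) y)
      rw [map_mul, ← h1, ← h2, show a * (a' * s) = a * a' * s by ring,
        show a' * (a * s) = a * a' * s by ring]
  have hG : EigenvaluesOfRank σ E r (frob Φ U (b' * (a * s))) := by
    rw [frob_pow_eq]
    exact eigenvaluesOfRank_pow hU (Nat.mul_pos hb' (Nat.mul_pos ha hs))
  have h5 := hT (b * (a' * s)) (Nat.mul_pos hb (Nat.mul_pos ha' hs)) (W.H U)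
    (frob Φ U (b' * (a * s))) hG (c : ℤ) 1 x
  have h6 : TensorProduct.map (frob Φ X (b * (a' * s))) (frob Φ U (b' * (a * s))) x =
      ((p : W.K) ^ (Φ.e X * (b * (a' * s)))) ^ (c : ℤ) • x := by
    apply (W.kunneth X U).1
    rw [← hcomm, hx, h4, map_smul, hx, zpow_natCast, ← pow_mul]
    congr 2
    calc Φ.e (X.prod U) * (a * a' * s) * c = (a * Φ.e (X.prod U)) * (a' * s) * c := by ring
      _ = Φ.e X * (b * (a' * s)) * c := by rw [hab]; ring
  have h7 : Killed (TensorProduct.map (frob Φ X (b * (a' * s))) (frob Φ U (b' * (a * s))))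
      (((p : W.K) ^ (Φ.e X * (b * (a' * s)))) ^ (c : ℤ)) 1 x := by
    refine killed_one_iff.2 ⟨1, one_pos, ?_⟩
    rw [pow_one, pow_one]
    exact h6
  have h8 := h5.1 h7
  rw [← hx]
  clear hx h7 h6 h5
  induction h8 using Submodule.span_induction with
  | mem w hw =>
    obtain ⟨i, y, v, ⟨z', hz', rfl⟩, -, rfl⟩ := hw
    exact Submodule.subset_span ⟨_, v, AS.of ⟨z', hz', rfl⟩, rfl⟩
  | zero => rw [map_zero]; exact Submodule.zero_mem _
  | add x y _ _ hx hy => rw [map_add]; exact Submodule.add_mem _ hx hy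
  | smul c x _ hx => rw [map_smul]; exact Submodule.smul_mem _ _ hx

lemma eigenvaluesOfRank_one (K : Type*) [Field K] (σ : K →+* ℂ) :
    EigenvaluesOfRank σ E r (1 : Module.End K K) := by
  intro ν hν
  obtain ⟨v, hv, hv0⟩ := hν.exists_hasEigenvector
  have h1 : (1 : Module.End K K) v = ν • v := Module.End.mem_eigenspace_iff.1 hv
  have h2 : ν = 1 := by
    rw [Module.End.one_apply, smul_eq_mul] at h1
    have h3 : (ν - 1) * v = 0 := by rw [sub_mul, one_mul, ← h1, sub_self]
    rcases mul_eq_zero.1 h3 with h4 | h4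
    · exact sub_eq_zero.1 h4
    · exact absurd h4 hv0
  rw [h2, map_one]
  refine ⟨Polynomial.X - 1, Polynomial.X_sub_C_ne_zero (1 : ℚ), by simp, fun _ => 1,
    fun _ => one_ne_zero, ?_⟩
  intro z hz
  have h3 : z = 1 := by
    have : Polynomial.aeval z (Polynomial.X - 1 : Polynomial ℚ) = 0 := hz
    rw [map_sub, Polynomial.aeval_X, map_one, sub_eq_zero] at this
    exact this
  rw [h3]
  exact ⟨1, 1, 0, one_pos, E.one_mem, one_ne_zero, by simp⟩

/-- The generalised eigenvectors of the Frobenius endomorphism are algebraic. -/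
lemma gen_alg (hp : 1 < p) (hT : TateTimes Φ σ E r X) {s : ℕ} (hs : 0 < s) {c a : ℕ}
    {y : W.H X} (hy : ((frob Φ X s - ((card Φ X s : W.K) ^ c) • (1 : Module.End W.K (W.H X))) ^ a)
      y = 0) : y ∈ cycSub W X c := by
  have hQ : (card Φ X s : W.K) ≠ 0 := card_ne Φ s
  have h1 := hT s hs W.K (1 : Module.End W.K W.K) (eigenvaluesOfRank_one W.K σ) (c : ℤ) a
    (y ⊗ₜ[W.K] (1 : W.K))
  have ec : ((p : W.K) ^ (Φ.e X * s)) = (card Φ X s : W.K) := by rw [W534.card, Nat.cast_pow]
  rw [ec] at h1
  have h2 : Killed (TensorProduct.map (frob Φ X s) (1 : Module.End W.K W.K))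
      ((card Φ X s : W.K) ^ (c : ℤ)) a (y ⊗ₜ[W.K] (1 : W.K)) := by
    refine ⟨1, one_pos, ?_⟩
    rw [pow_one, pow_one, zpow_natCast]
    have h3 : ∀ (a : ℕ) (y : W.H X), (((TensorProduct.map (frob Φ X s) (1 : Module.End W.K W.K) :
        Module.End W.K (W.H X ⊗[W.K] W.K)) - ((card Φ X s : W.K) ^ c) • 1) ^ a)
          (y ⊗ₜ[W.K] (1 : W.K)) =
        (((frob Φ X s - ((card Φ X s : W.K) ^ c) • (1 : Module.End W.K (W.H X))) ^ a) y) ⊗ₜ
          (1 : W.K) := by
      intro a
      induction a with
      | zero => intro y; rfl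
      | succ a ih =>
        intro y
        rw [pow_succ, Module.End.mul_apply, pow_succ, Module.End.mul_apply, ← ih]
        congr 1
        rw [LinearMap.sub_apply, LinearMap.smul_apply, Module.End.one_apply,
          TensorProduct.map_tmul, LinearMap.sub_apply, LinearMap.smul_apply,
          Module.End.one_apply, Module.End.one_apply, TensorProduct.sub_tmul,
          TensorProduct.smul_tmul']
    rw [h3, hy, TensorProduct.zero_tmul]
  have h4 := h1.1 h2
  have h5 : ∀ x ∈ Submodule.span W.K {w : W.H X ⊗[W.K] W.K | ∃ (i : ℕ) (y : W.H X) (v : W.K),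
      (∃ z, X.IsCyc i z ∧ y = W.cl X z) ∧
      Killed (1 : Module.End W.K W.K) ((card Φ X s : W.K) ^ ((c : ℤ) - i)) a v ∧ w = y ⊗ₜ v},
      TensorProduct.rid W.K (W.H X) x ∈ cycSub W X c := by
    intro x hx
    induction hx using Submodule.span_induction with
    | mem w hw =>
      obtain ⟨i, y, v, hz, ⟨M, hM, hv⟩, rfl⟩ := hw
      rw [TensorProduct.rid_tmul]
      by_cases hv0 : v = 0
      · rw [hv0, zero_smul]; exact Submodule.zero_mem _
      have h6 : ∀ (a : ℕ), ((((1 : Module.End W.K W.K) ^ M -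
          (((card Φ X s : W.K) ^ ((c : ℤ) - i)) ^ M) • (1 : Module.End W.K W.K)) ^ a) v) =
          (1 - ((card Φ X s : W.K) ^ ((c : ℤ) - i)) ^ M) ^ a * v := by
        intro a
        induction a with
        | zero => simp
        | succ a ih =>
          rw [pow_succ', Module.End.mul_apply, ih, one_pow, LinearMap.sub_apply,
            Module.End.one_apply, LinearMap.smul_apply, Module.End.one_apply, smul_eq_mul]
          ring
      rw [h6] at hv
      have h7 : ((card Φ X s : W.K) ^ ((c : ℤ) - i)) ^ M = 1 := by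
        rcases mul_eq_zero.1 hv with h8 | h8
        · have h9 : a ≠ 0 := by
            rintro rfl
            rw [pow_zero] at h8
            exact one_ne_zero h8
          exact (sub_eq_zero.1 ((pow_eq_zero_iff h9).1 h8)).symm
        · exact absurd h8 hv0
      have h8 : c = i := by
        have h9 : 1 < card Φ X s := Nat.one_lt_pow (Nat.mul_pos (Φ.e_pos X) hs).ne' hp
        rw [← zpow_natCast, ← zpow_mul] at h7
        have h10 : ((card Φ X s : ℚ) ^ (((c : ℤ) - i) * M)) = 1 := by
          have : (((card Φ X s : ℚ) ^ (((c : ℤ) - i) * M) : ℚ) : W.K) = ((1 : ℚ) : W.K) := by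
            push_cast
            exact h7
          exact_mod_cast this
        have h11 : (1 : ℚ) < card Φ X s := by exact_mod_cast h9
        have h12 := (zpow_eq_one_iff_right₀ (zero_lt_one.trans h11).le h11.ne').1 h10
        rcases mul_eq_zero.1 h12 with h13 | h13
        · omega
        · omega
      rw [h8]
      obtain ⟨z, hz, rfl⟩ := hz
      exact Submodule.smul_mem _ _ (Submodule.subset_span ⟨z, hz, rfl⟩)
    | zero => rw [map_zero]; exact Submodule.zero_mem _
    | add x y _ _ hx hy => rw [map_add]; exact Submodule.add_mem _ hx hy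
    | smul c x _ hx => rw [map_smul]; exact Submodule.smul_mem _ _ hx
  have h6 := h5 _ h4
  rwa [TensorProduct.rid_tmul, one_smul] at h6

/-- **Homological and numerical equivalence coincide.** -/
theorem homEqNum_of_tateTimes [IsAlgClosed W.K] (hp : 1 < p) (hT : TateTimes Φ σ E r X) :
    HomEqNum W X := by
  intro j hj z hz hnum
  obtain ⟨s, hs, h1⟩ := Φ.cyc hz
  have hQ : (card Φ X s : W.K) ≠ 0 := card_ne Φ s
  have h1' : frob Φ X s (W.cl X z) = (card Φ X s : W.K) ^ j • W.cl X z := by
    rw [frob_apply, h1, W534.card, Nat.cast_pow, ← pow_mul]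
  have hadj : ∀ b : W.H X, W.tr X (W.cl X z * frob Φ X s b) =
      (card Φ X s : W.K) ^ (X.dim - j) * W.tr X (W.cl X z * b) := by
    intro b
    have h2 := tr_iter Φ s (W.cl X z * b)
    rw [map_mul] at h2
    change W.tr X (frob Φ X s (W.cl X z) * frob Φ X s b) = _ at h2
    rw [h1', smul_mul_assoc, map_smul, smul_eq_mul] at h2
    have h3 : ((p : W.K) ^ (Φ.e X * s * X.dim)) =
        (card Φ X s : W.K) ^ j * (card Φ X s : W.K) ^ (X.dim - j) := by
      rw [← pow_add, show j + (X.dim - j) = X.dim by omega, W534.card, Nat.cast_pow, ← pow_mul]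
    rw [h3, mul_assoc] at h2
    exact mul_left_cancel₀ (pow_ne_zero _ hQ) h2
  apply W.nondeg
  intro b
  have hb := span_gen_top (frob Φ X s) b
  induction hb using Submodule.span_induction with
  | mem b hb =>
    obtain ⟨μ, hμ⟩ := hb
    rw [Module.End.mem_maxGenEigenspace] at hμ
    obtain ⟨a, ha⟩ := hμ
    have h2 : ∀ (a : ℕ) (b : W.H X), W.tr X (W.cl X z *
        (((frob Φ X s - μ • (1 : Module.End W.K (W.H X))) ^ a) b)) =
          ((card Φ X s : W.K) ^ (X.dim - j) - μ) ^ a * W.tr X (W.cl X z * b) := by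
      intro a
      induction a with
      | zero => intro b; simp
      | succ a ih =>
        intro b
        rw [pow_succ, Module.End.mul_apply, ih, LinearMap.sub_apply, LinearMap.smul_apply,
          Module.End.one_apply, mul_sub, map_sub, hadj, mul_smul_comm, map_smul, smul_eq_mul]
        ring
    have h3 := h2 a b
    rw [ha, mul_zero, map_zero] at h3
    rcases mul_eq_zero.1 h3.symm with h4 | h4
    · have h5 : (card Φ X s : W.K) ^ (X.dim - j) = μ := by
        rcases Nat.eq_zero_or_pos a with h0 | h0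
        · rw [h0, pow_zero] at h4
          exact absurd h4 one_ne_zero
        · exact sub_eq_zero.1 ((pow_eq_zero_iff h0.ne').1 h4)
      rw [← h5] at ha
      have h6 := gen_alg hp hT hs ha
      clear ha h2 h3
      rw [cycSub] at h6
      induction h6 using Submodule.span_induction with
      | mem w hw =>
        obtain ⟨z', hz', rfl⟩ := hw
        have h7 := ops.mul_mem hz hz'
        rw [show j + (X.dim - j) = X.dim by omega] at h7
        rw [← W.cl_mul, W.tr_cl h7, hnum z' hz', Rat.cast_zero]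
      | zero => rw [mul_zero, map_zero]
      | add x y _ _ hx hy => rw [mul_add, map_add, hx, hy, add_zero]
      | smul c x _ hx => rw [mul_smul_comm, map_smul, hx, smul_zero]
    · exact h4
  | zero => rw [mul_zero, map_zero]
  | add x y _ _ hx hy => rw [mul_add, map_add, hx, hy, add_zero]
  | smul c x _ hx => rw [mul_smul_comm, map_smul, hx, smul_zero]

/-- The cycles on the product with a variety of small Frobenius rank split. -/
theorem tens_of_tateTimes [IsAlgClosed W.K] (hp : 1 < p) (hT : TateTimes Φ σ E r X)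
    (hU : EigenvaluesOfRank σ E r (W.map (Φ.Fr U)).toLinearMap) {z : W.H (X.prod U)}
    (hz : AS W (X.prod U) z) : z ∈ tens W X U := by
  refine mem_tens (homEqNum_of_tateTimes hp hT) hz ?_
  refine AS.ind (p := fun z => z ∈ Submodule.span W.K {w | ∃ x y, AS W X x ∧ w = ext W x y})
    ?_ (fun x y hx hy => Submodule.add_mem _ hx hy) hz
  rintro c _ ⟨z, hz, rfl⟩
  exact span_of_tateTimes hT hU hz

end Pool.Agent.TH132.A
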