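import Pool.Agent.TH132.A.NumIn
import Pool.Agent.TH132.A.DDefs
import Pool.Agent.TH132.A.Tate
import Pool.Agent.W458.RK.Final

/-!
# The conjecture D for the products of almost all members with all varieties of small rank
-/

set_option autoImplicit false

open CategoryTheory AlgebraicGeometry

universe u v

namespace Pool.Agent.TH132.A

open Pool.Agent.H914 Pool.Agent.H914.VarClass Pool.Agent.H914.VarClass.Obj
  Pool.Agent.H914.WeilCohomology Pool.Agent.H281R3.HT Pool.Agent.W552 Pool.Agent.W534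
  Pool.Agent.W458.RK Pool.Agent.W458.MF

variable {k : Type u} [Field k] {𝒱 : VarClass k} {ops : CycleOps 𝒱}

/-- The Tate conjecture for the products with all varieties of small rank implies the reduction of
the conjecture `D` for these products. -/
theorem homEqNumTimes_of_tateTimes {W : WeilCohomology.{u, v} ops} [IsAlgClosed W.K] {p : ℕ}
    {Φ : FrobSystem W p} {σ : W.K →+* ℂ} {E : Subfield ℂ} {r : ℕ} {X : 𝒱.Obj} (hp : 1 < p)
    (hT : TateTimes Φ σ E r X) : HomEqNumTimes Φ σ E r X := by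
  intro U hU c hc
  rw [homEqNumIn_prod_iff (fun z hz => tens_of_tateTimes hp hT hU hz)
    (homEqNum_of_tateTimes hp hT) hc]
  refine forall_congr' fun i => forall_congr' fun _ => ?_
  have e : (∃ x, X.IsCyc i x ∧ ¬ HomEq W x 0) ↔ ∃ x, X.IsCyc i x ∧ W.cl X x ≠ 0 := by
    refine exists_congr fun x => and_congr_right fun _ => ?_
    rw [HomEq, map_zero]
  rw [e]

/-- **The conjecture D for the products of almost all members with all varieties of small rank.** -/
theorem final_d_times (W : WeilCohomology.{u, v} ops) [IsAlgClosed W.K] (σ : W.K →+* ℂ)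
    (p : ℕ) (hp : p.Prime) (Φ : FrobSystem W p) (Y : 𝒱.Obj) (hY : ∀ x : W.H Y, x ∈ algSpan W Y)
    {I : Type} [Fintype I] (F : I → Family W Y) (e : I → ℕ)
    (hF : ∀ i, Pol.HasLargeMonodromy (F i) Φ (e i)) (E : Subfield ℂ) [NumberField E] (r : ℕ)
    (hr : ∀ i m (s : (F i).S m), r < ((F i).member m s).pol.natDegree) (ε : ℝ) (hε : 0 < ε) :
    ∃ m₀ : ℕ, ∀ m ≥ m₀, ((badTuples F m (fun i P => e i ≠ 0 → ForcedTate p P m)
      (HomEqNumTimes Φ σ E r)).ncard : ℝ) ≤ ε * ∏ i, (Nat.card ((F i).S m) : ℝ) := by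
  obtain ⟨m₀, h⟩ := final_tate_times W σ p hp Φ Y hY F e hF E r hr ε hε
  refine ⟨m₀, fun m hm => le_trans ?_ (h m hm)⟩
  refine Nat.cast_le.2 (Set.ncard_le_ncard ?_ (Set.toFinite _))
  rintro s ⟨hs1, hs2⟩
  exact ⟨hs1, fun h3 => hs2 fun Z hZ => homEqNumTimes_of_tateTimes hp.one_lt (h3 Z hZ)⟩

end Pool.Agent.TH132.A
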