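import Pool.Agent.TH132.A.Form

/-!
# The largest rational Lefschetz structure in the algebraic classes
-/

set_option autoImplicit false

open CategoryTheory AlgebraicGeometry

universe u v

namespace Pool.Agent.TH132.A

open Pool.Agent.H914 Pool.Agent.H914.VarClass Pool.Agent.H914.VarClass.Obj
  Pool.Agent.H914.WeilCohomology Pool.Agent.H281R3.HT Pool.Agent.W552

section Exp

variable {K : Type*} [Field K] [CharZero K] {V : Type*} [AddCommGroup V] [Module K V]

/-- A rational structure stable under two nilpotent operators is stable under their Weyl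
operator. -/
lemma ratSub_wey {M : V → Prop} (hM : RatSub K M) {e f : Module.End K V} (he : IsNilpotent e)
    (hf : IsNilpotent f) (hMe : ∀ x, M x → M (e x)) (hMf : ∀ x, M x → M (f x)) {x : V}
    (hx : M x) : M (wey e f x) := by
  let _ : Module ℚ (Module.End K V) := Module.compHom (Module.End K V) (algebraMap ℚ K)
  have hexp : ∀ {g : Module.End K V}, IsNilpotent g → (∀ x, M x → M (g x)) →
      ∀ x, M x → M ((IsNilpotent.exp g) x) := by
    intro g hng hg x hx
    obtain ⟨N, hN⟩ := hng
    rw [IsNilpotent.exp_eq_sum hN, LinearMap.sum_apply]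
    refine hM.sum _ fun i _ => ?_
    have h1 : ((i.factorial : ℚ)⁻¹ • g ^ i) = (((i.factorial : ℚ)⁻¹ : ℚ) : K) • g ^ i := rfl
    rw [h1, LinearMap.smul_apply]
    refine hM.smul _ ?_
    have h2 : ∀ i : ℕ, M ((g ^ i) x) := by
      intro i
      induction i with
      | zero => simpa using hx
      | succ i ih => rw [pow_succ', Module.End.mul_apply]; exact hg _ ih
    exact h2 i
  change M (weyl e f x)
  rw [weyl, Module.End.mul_apply, Module.End.mul_apply]
  exact hexp he hMe _ (hexp hf.neg (fun x hx => by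
    rw [LinearMap.neg_apply]; exact hM.neg (hMf x hx)) _ (hexp he hMe _ hx))

end Exp

variable {k : Type u} [Field k] {𝒱 : VarClass k} {ops : CycleOps 𝒱}
  {W : WeilCohomology.{u, v} ops} {X U : 𝒱.Obj} {D : X.Cycles} {f : Module.End W.K (W.H X)}

/-- The products of the operators of the Lefschetz triple. -/
def words (W : WeilCohomology.{u, v} ops) (X : 𝒱.Obj) (D : X.Cycles)
    (f : Module.End W.K (W.H X)) : Submonoid (Module.End W.K (W.H X)) :=
  Submonoid.closure {LinearMap.mulLeft W.K (W.cl X D), f}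

/-- All operators of the Lefschetz triple map the class to algebraic classes. -/
def Deep (W : WeilCohomology.{u, v} ops) (X : 𝒱.Obj) (D : X.Cycles)
    (f : Module.End W.K (W.H X)) (x : W.H X) : Prop :=
  ∀ T ∈ words W X D f, AS W X (T x)

lemma e_words : LinearMap.mulLeft W.K (W.cl X D) ∈ words W X D f :=
  Submonoid.subset_closure (Or.inl rfl)

lemma f_words : f ∈ words W X D f := Submonoid.subset_closure (Or.inr rfl)

lemma Deep.as {x : W.H X} (h : Deep W X D f x) : AS W X x := h 1 (Submonoid.one_mem _)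

lemma Deep.word {x : W.H X} (h : Deep W X D f x) {T : Module.End W.K (W.H X)}
    (hT : T ∈ words W X D f) : Deep W X D f (T x) := by
  intro T' hT'
  have := h (T' * T) (Submonoid.mul_mem _ hT' hT)
  rwa [Module.End.mul_apply] at this

lemma deep_ratSub : RatSub W.K (Deep W X D f) where
  zero := fun T _ => by rw [map_zero]; exact AS.zero
  add := fun hx hy T hT => by rw [map_add]; exact (hx T hT).add (hy T hT)
  smul := fun q _ hx T hT => by rw [map_smul]; exact (hx T hT).smul q

lemma e_AS (hD : X.IsCyc 1 D) {x : W.H X} (hx : AS W X x) :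
    AS W X (LinearMap.mulLeft W.K (W.cl X D) x) := (AS.of ⟨D, hD, rfl⟩).mul hx

lemma deep_of_stable (hD : X.IsCyc 1 D) (hf : Stable W X f) {x : W.H X} (hx : AS W X x) :
    Deep W X D f x := by
  intro T hT
  induction hT using Submonoid.closure_induction generalizing x with
  | mem T hT =>
    rcases hT with rfl | rfl
    · exact e_AS hD hx
    · exact hf x hx
  | one => exact hx
  | mul S T _ _ hS hT => rw [Module.End.mul_apply]; exact hS (hT hx)

lemma words_hom (hD : X.IsCyc 1 D) (hf : IsHom (W.gr X) (-2) f) {T : Module.End W.K (W.H X)}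
    (hT : T ∈ words W X D f) : ∃ d, IsHom (W.gr X) d T := by
  induction hT using Submonoid.closure_induction with
  | mem T hT =>
    rcases hT with rfl | rfl
    · exact ⟨2, mulLeft_isHom hD⟩
    · exact ⟨-2, hf⟩
  | one => exact ⟨0, isHom_one⟩
  | mul S T _ _ hS hT =>
    obtain ⟨a, ha⟩ := hS
    obtain ⟨b, hb⟩ := hT
    exact ⟨a + b, ha.mul hb⟩

lemma AS_scal (c : ℕ → ℚ) {x : W.H X} (hx : AS W X x) :
    AS W X (scal (W.isInternal X) (fun i => ((c i : ℚ) : W.K)) x) := by
  refine AS.ind (p := fun x => AS W X (scal (W.isInternal X) (fun i => ((c i : ℚ) : W.K)) x))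
    ?_ ?_ hx
  · intro j x hx
    rw [scal_apply _ _ (alg_gr hx)]
    exact (AS.of hx).smul _
  · intro a b ha hb
    rw [map_add]
    exact ha.add hb

lemma Deep.proj (hD : X.IsCyc 1 D) (hf : IsHom (W.gr X) (-2) f) {x : W.H X}
    (h : Deep W X D f x) (j : ℕ) : Deep W X D f (H914.proj (W.isInternal X) j x) := by
  intro T hT
  obtain ⟨d, hd⟩ := words_hom hD hf hT
  have h1 := hd.scal_comm (W.isInternal X) (fun i => if i = (j : ℤ) + d then 1 else 0)
    (fun i => if i = (j : ℤ) then 1 else 0) (fun i => by simp)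
  have h2 := congrArg (fun G => G x) h1
  simp only [Module.End.mul_apply] at h2
  have h3 : H914.proj (W.isInternal X) j =
      scal (W.isInternal X) (fun i : ℕ => if (i : ℤ) = (j : ℤ) then (1 : W.K) else 0) := by
    rw [H914.proj]
    congr 1
    funext i
    simp
  rw [h3, ← h2]
  have h4 := AS_scal (fun i : ℕ => if (i : ℤ) = (j : ℤ) + d then (1 : ℚ) else 0) (h T hT)
  have h5 : (fun i : ℕ => (((if (i : ℤ) = (j : ℤ) + d then (1 : ℚ) else 0) : ℚ) : W.K)) =
      fun i : ℕ => if (i : ℤ) = (j : ℤ) + d then (1 : W.K) else 0 := by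
    funext i
    split_ifs <;> simp
  rw [h5] at h4
  exact h4

namespace Lw

variable (F : Lw W X D f)

include F

lemma deep_wop {x : W.H X} (h : Deep W X D f x) : Deep W X D f (wop W X D f x) :=
  ratSub_wey deep_ratSub F.sl2.nil_e F.sl2.nil_f (fun _ hx => hx.word e_words)
    (fun _ hx => hx.word f_words) h

lemma f_gr {i : ℕ} {a : W.H X} (ha : a ∈ W.gr X i) :
    (∀ j, j + 2 = i → f a ∈ W.gr X j) ∧ (i < 2 → f a = 0) := by
  have h1 := congrArg (fun G => G a) F.sl2.hf
  simp only [LinearMap.sub_apply, Module.End.mul_apply, LinearMap.neg_apply, Fr.wt_gr ha,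
    map_smul] at h1
  have h2 : (2 : Module.End W.K (W.H X)) (f a) = (2 : W.K) • f a := by
    rw [ofNat_smul_eq_nsmul]; rfl
  have h3 : wt (W.isInternal X) X.dim (f a) = ((i : W.K) - X.dim - 2) • f a := by
    rw [h2, sub_eq_iff_eq_add] at h1
    rw [h1, ← neg_smul, ← add_smul]
    congr 1
    ring
  have h4 := mem_gr_of_wt (W.isInternal X) W_hbd h3
  constructor
  · intro j hj
    apply h4.1
    rw [← hj]
    push_cast
    ring
  · intro hi
    apply h4.2
    intro j h0
    have : (i : W.K) = (j + 2 : ℕ) := by push_cast; linear_combination h0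
    have : i = j + 2 := by exact_mod_cast this
    omega

/-- The classes on which all operators are algebraic form a rational Lefschetz structure. -/
lemma deepPart (hH : HodgeType W X D) : AlgPart (W.gr X) X.dim
    (LinearMap.mulLeft W.K (W.cl X D)) (bil W X)
    (fun l => {c | c ∈ algClasses W X l ∧ Deep W X D f c}) where
  sub := fun l c hc => alg_gr hc.1
  zero := fun l => ⟨alg_zero l, deep_ratSub.zero⟩
  add := fun l c hc d hd => ⟨alg_add hc.1 hd.1, deep_ratSub.add hc.2 hd.2⟩
  smul := fun l q c hc => ⟨alg_smul q hc.1, deep_ratSub.smul q hc.2⟩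
  map_L := fun l c hc => ⟨by
    rw [add_comm l 1]
    exact alg_mul ⟨D, F.hD, rfl⟩ hc.1, hc.2.word e_words⟩
  rat := fun l l' c hc d hd => by
    rw [bil_apply]
    exact ((AS.of hc.1).mul (AS.of hd.1)).tr
  hl := by
    rintro l hl c ⟨hc, hcd⟩
    set P : ℤ → W.H X → Prop := fun d x => x = 0 ∨
      ∃ c : ℕ, (2 * c : ℤ) = X.dim + d ∧ x ∈ algClasses W X c ∧ Deep W X D f x with hP
    obtain ⟨x, hx, hxz⟩ := exists_preimage' F.sl2 (P := P) (fun d => Or.inl rfl)
      (by
        rintro d x y (rfl | ⟨c, hc, hx, hx'⟩) (rfl | ⟨c', hc', hy, hy'⟩)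
        · exact Or.inl (add_zero 0)
        · rw [zero_add]; exact Or.inr ⟨c', hc', hy, hy'⟩
        · rw [add_zero]; exact Or.inr ⟨c, hc, hx, hx'⟩
        · obtain rfl : c = c' := by omega
          exact Or.inr ⟨c, hc, alg_add hx hy, deep_ratSub.add hx' hy'⟩)
      (by
        rintro q d x (rfl | ⟨c, hc, hx, hx'⟩)
        · exact Or.inl (smul_zero _)
        · exact Or.inr ⟨c, hc, alg_smul q hx, deep_ratSub.smul q hx'⟩)
      (by
        rintro d x (rfl | ⟨c, hc, hx, hx'⟩)
        · exact Or.inl (map_zero _)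
        · refine Or.inr ⟨c + 1, by push_cast; omega, ?_, hx'.word e_words⟩
          rw [add_comm c 1]
          exact alg_mul ⟨D, F.hD, rfl⟩ hx)
      (by
        rintro d x (rfl | ⟨c, hc, hx, hx'⟩)
        · exact Or.inl (map_zero _)
        · have h1 := F.f_gr (alg_gr hx)
          rcases Nat.eq_zero_or_pos c with rfl | h0
          · exact Or.inl (h1.2 (by omega))
          · refine Or.inr ⟨c - 1, by omega, ?_, hx'.word f_words⟩
            exact (hx'.word f_words).as.alg (h1.1 (2 * (c - 1)) (by omega)))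
      (by
        rintro d x (rfl | ⟨c, hc, hx, hx'⟩)
        · rw [map_zero, smul_zero]
        · rw [Fr.wt_gr (alg_gr hx)]
          congr 1
          have : ((2 * c : ℤ) : W.K) = ((X.dim + d : ℤ) : W.K) := by rw [hc]
          push_cast at this ⊢
          linear_combination this)
      (X.dim - 2 * l) (y := c)
      (Or.inr ⟨X.dim - l, by omega, hc, hcd⟩)
    rcases hx with rfl | ⟨c', hc', hx, hx'⟩
    · refine ⟨0, ⟨alg_zero l, deep_ratSub.zero⟩, hxz⟩
    · obtain rfl : c' = l := by omega
      exact ⟨x, ⟨hx, hx'⟩, hxz⟩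
  pos := by
    rintro l hl c ⟨⟨z, hz, rfl⟩, -⟩ hp h0
    refine ⟨_, ?_, hH l hl z hz (by rw [cl_divPow]; exact hp) h0⟩
    rw [bil_apply, ← cl_divPow, ← W.cl_mul, W.tr_cl]
    have := ops.mul_mem hz (divPow_mem (ops := ops) F.hD (X.dim - 2 * l) hz)
    rwa [show l + (l + (X.dim - 2 * l)) = X.dim by omega] at this
  self a b := by
    rw [bil_apply, bil_apply, LinearMap.mulLeft_apply, LinearMap.mulLeft_apply,
      W.even_comm (p := 1) (W.cl_mem F.hD) a, mul_assoc]
  deg i j a ha b hb hij := W.tr_eq_zero (W.mul_mem ha hb) hij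
  symm l a ha b := by
    rw [bil_apply, bil_apply, W.even_comm ha]

/-- **Positivity of the form.** -/
theorem bf_pos (hf : IsHom (W.gr X) (-2) f) (hH : HodgeType W X D) {x : W.H X}
    (hx : Deep W X D f x) (hx0 : x ≠ 0) : ∃ q : ℚ, 0 < q ∧ bf W X D f x x = q := by
  classical
  have hC := F.deepPart hH
  have t := F.sl2
  set L : Module.End W.K (W.H X) := LinearMap.mulLeft W.K (W.cl X D) with hL
  have hw1 : wey L f * L = -(f * wey L f) := wey_e t
  have hw3 : ∀ (m : ℕ) (v : W.H X), f v = 0 → wt (W.isInternal X) X.dim v = -(m : W.K) • v →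
      wey L f v = ((m.factorial : W.K)⁻¹) • (L ^ m) v := fun m v hv hm => wey_lowest t hv hm
  have hHw : ∀ i, ∀ a ∈ W.gr X i, wt (W.isInternal X) X.dim a = ((i : W.K) - X.dim) • a :=
    fun i a ha => Fr.wt_gr ha
  have hlow : ∀ i ≤ X.dim, ∀ a ∈ W.gr X i, (L ^ (X.dim - i + 1)) a = 0 → f a = 0 := by
    intro i hi a ha h0
    refine t.f_eq_zero (M := X.dim - i) ?_ h0
    rw [hHw i a ha, Nat.cast_sub hi]
    congr 1
    ring
  have key : ∀ j, ∃ q : ℚ, 0 ≤ q ∧ (proj (W.isInternal X) (2 * j) x ≠ 0 → 0 < q) ∧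
      bf W X D f (proj (W.isInternal X) (2 * j) x) (proj (W.isInternal X) (2 * j) x) = q := by
    intro j
    have h1 : proj (W.isInternal X) (2 * j) x ∈ algClasses W X j ∧
        Deep W X D f (proj (W.isInternal X) (2 * j) x) := ⟨hx.as.proj j, hx.proj F.hD hf _⟩
    by_cases h0 : proj (W.isInternal X) (2 * j) x = 0
    · exact ⟨0, le_rfl, fun h => absurd h0 h, by rw [h0]; simp⟩
    obtain ⟨s, hs, hs'⟩ := hC.weyl_pos t hw1 hw3 hlow hHw (mulLeft_isHom F.hD) W_hbd h1 h0
    refine ⟨(-1) ^ j * s, hs'.le, fun _ => hs', ?_⟩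
    rw [bf_apply, st_apply (alg_gr h1.1), mul_smul_comm, map_smul, ← bil_apply]
    rw [hL] at hs
    rw [hs, sg_two_mul, smul_eq_mul]
    push_cast
    rfl
  choose q hq0 hq1 hq2 using key
  refine ⟨∑ j ∈ Finset.range (X.dim + 1), q j, ?_, ?_⟩
  · have hex : ∃ j ∈ Finset.range (X.dim + 1), proj (W.isInternal X) (2 * j) x ≠ 0 := by
      by_contra h0
      push Not at h0
      apply hx0
      rw [Fr.AS_sum hx.as, Finset.sum_eq_zero h0]
    obtain ⟨j, hj, hj0⟩ := hex
    exact Finset.sum_pos' (fun b hb => hq0 b) ⟨j, hj, hq1 j hj0⟩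
  · have h1 : bf W X D f x x = bf W X D f
        (∑ j ∈ Finset.range (X.dim + 1), proj (W.isInternal X) (2 * j) x)
        (∑ j ∈ Finset.range (X.dim + 1), proj (W.isInternal X) (2 * j) x) := by
      rw [← Fr.AS_sum hx.as]
    rw [h1, map_sum (bf W X D f), LinearMap.sum_apply, Rat.cast_sum]
    apply Finset.sum_congr rfl
    intro j hj
    rw [map_sum, Finset.sum_eq_single j, hq2]
    · intro i _ hi
      exact F.bf_deg (proj_mem _ _ _) (proj_mem _ _ _) (by omega)
    · intro h0; exact absurd hj h0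

/-- The form is rational. -/
lemma bf_rat (hf : IsHom (W.gr X) (-2) f) {x y : W.H X} (hx : Deep W X D f x)
    (hy : Deep W X D f y) : ∃ q : ℚ, bf W X D f x y = q := by
  have hst : AS W X (st W X D f y) := by
    rw [Fr.AS_sum hy.as, map_sum]
    refine AS.ratSub.sum _ fun j _ => ?_
    rw [st_apply (alg_gr (hy.as.proj j))]
    have := (F.deep_wop (hy.proj F.hD hf (2 * j))).as.smul (sg (2 * j) : ℚ)
    simpa using this
  rw [bf_apply]
  exact (hx.as.mul hst).tr

/-- The form is symmetric. -/
lemma bf_symm (hHL : HardLefschetz W X D) {x y : W.H X} (hx : AS W X x) (hy : AS W X y) :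
    bf W X D f x y = bf W X D f y x := by
  have t : LefStr (W.isInternal X) X.dim (LinearMap.mulLeft W.K (W.cl X D)) f :=
    ⟨mulLeft_isHom F.hD, W_hbd, hHL, F.sl2⟩
  refine AS.ind (p := fun x => bf W X D f x y = bf W X D f y x) ?_ ?_ hx
  · intro i x hx
    refine AS.ind (p := fun y => bf W X D f x y = bf W X D f y x) ?_ ?_ hy
    · intro j y hy
      have h1 := t.form_symm (B := bil W X) (fun a b => by
        rw [bil_apply, bil_apply, LinearMap.mulLeft_apply, LinearMap.mulLeft_apply,
          W.even_comm (p := 1) (W.cl_mem F.hD) a, mul_assoc])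
        (fun i j a ha b hb hij => W.tr_eq_zero (W.mul_mem ha hb) hij)
        (fun i j a ha b hb => by
          rw [bil_apply, bil_apply, W.comm ha hb, map_smul, smul_eq_mul])
        (alg_gr hy) (alg_gr hx)
      rw [pow_mul] at h1
      simp only [even_two, Even.neg_pow, one_pow, one_mul] at h1
      exact h1
    · intro a b ha hb
      rw [map_add, ha, hb, map_add, LinearMap.add_apply]
  · intro a b ha hb
    rw [map_add, LinearMap.add_apply, ha, hb, map_add]

end Lw

end Pool.Agent.TH132.A
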