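import Pool.Agent.W458.RK.TDefs
import Pool.Agent.H914R2.HodgeDefs

/-!
# The conjecture A for the products with all varieties of small Frobenius rank: definitions
-/

set_option autoImplicit false

open CategoryTheory AlgebraicGeometry

universe u v

namespace Pool.Agent.TH132.A

open Pool.Agent.H914 Pool.Agent.H914.VarClass Pool.Agent.H914.VarClass.Obj
  Pool.Agent.H914.WeilCohomology Pool.Agent.W534 Pool.Agent.W458.RK

/-- The cycles `z` and `w` are homologically equivalent: they have the same class. -/
def HomEq {k : Type u} [Field k] {𝒱 : VarClass k} {ops : CycleOps 𝒱}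
    (W : WeilCohomology.{u, v} ops) {X : 𝒱.Obj} (z w : X.Cycles) : Prop :=
  W.cl X z = W.cl X w

/-- Each cycle of codimension `c` on `X × U` is homologically equivalent to a sum of cycles `x × y`
with `x` a cycle of codimension `i` on `X`, `y` a cycle of codimension `j` on `U`, and
`i + j = c`. -/
def CyclesSplit {k : Type u} [Field k] {𝒱 : VarClass k} {ops : CycleOps 𝒱}
    (W : WeilCohomology.{u, v} ops) (X U : 𝒱.Obj) : Prop :=
  ∀ c z, (X.prod U).IsCyc c z → ∃ l : List (X.prod U).Cycles, HomEq W z l.sum ∧
    ∀ w ∈ l, ∃ i j x y, i + j = c ∧ X.IsCyc i x ∧ U.IsCyc j y ∧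
      w = ops.mul (ops.pull (fst X U) x) (ops.pull (snd X U) y)

/-- The divisor `C` on `X × U` is homologically equivalent to the sum of `D × U` and of `X × B`,
where `D` is a divisor on `X` and `B` a divisor on `U`. -/
def IsSumOf {k : Type u} [Field k] {𝒱 : VarClass k} {ops : CycleOps 𝒱}
    (W : WeilCohomology.{u, v} ops) {X U : 𝒱.Obj} (C : (X.prod U).Cycles) (D : X.Cycles)
    (B : U.Cycles) : Prop :=
  X.IsCyc 1 D ∧ U.IsCyc 1 B ∧ HomEq W C (ops.pull (fst X U) D + ops.pull (snd X U) B)

/-- For **all** varieties `U` such that the eigenvalues of the Frobenius endomorphism on the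
cohomology of `U` have rank at most `r` over `E`:

* the cycles on `X × U` are homologically equivalent to sums of products of cycles on `X` and on `U`;
* each divisor `C` on `X × U` is homologically equivalent to a sum `D × U + X × B` of divisors from
  the factors;
* if `C` satisfies hard Lefschetz for `X × U` then `D` satisfies hard Lefschetz for `X`, `B`
  satisfies hard Lefschetz for `U`, and the conjecture `A` for `X × U` and `C` holds if and only if
  the conjecture `A` for `U` and `B` holds (the class of the fundamental cycle of `X × U` is assumed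
  to be nonzero). -/
def LefschetzTimes {k : Type u} [Field k] {𝒱 : VarClass k} {ops : CycleOps 𝒱}
    {W : WeilCohomology.{u, v} ops} {p : ℕ} (Φ : FrobSystem W p) (σ : W.K →+* ℂ) (E : Subfield ℂ)
    (r : ℕ) (X : 𝒱.Obj) : Prop :=
  ∀ U : 𝒱.Obj, EigenvaluesOfRank σ E r (W.map (Φ.Fr U)).toLinearMap →
    CyclesSplit W X U ∧
    (∀ C, (X.prod U).IsCyc 1 C → ∃ D B, IsSumOf W C D B) ∧
    (¬ HomEq W (X.prod U).V.fundCycle 0 → ∀ C D B, (X.prod U).IsCyc 1 C → IsSumOf W C D B →
      HardLefschetz W (X.prod U) C → HardLefschetz W X D ∧ HardLefschetz W U B ∧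
        (LefschetzA W (X.prod U) C ↔ LefschetzA W U B))

end Pool.Agent.TH132.A
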