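import Pool.Agent.W552.RatBasis

/-!
# Dual families for a rational structure with a nondegenerate rational form
-/

set_option autoImplicit false

namespace Pool.Agent.TH132.A

open Pool.Agent.W552

/-- A rational structure with a rational form which is nondegenerate on it has a finite `K`-basis
with a dual family in it. -/
theorem exists_dual {K : Type*} [Field K] [CharZero K] {V : Type*} [AddCommGroup V] [Module K V]
    [Module.Finite K V] {M : V → Prop} (hM : RatSub K M) (β : V →ₗ[K] V →ₗ[K] K)
    (hrat : ∀ x y, M x → M y → ∃ q : ℚ, β x y = q)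
    (hnd : ∀ x, M x → (∀ y, M y → β x y = 0) → x = 0) :
    ∃ (N : ℕ) (a b : Fin N → V), (∀ i, M (a i)) ∧ (∀ i, M (b i)) ∧
      (∀ i j, β (a i) (b j) = if i = j then 1 else 0) ∧
      ∀ x, M x → x ∈ Submodule.span K (Set.range a) := by
  classical
  obtain ⟨S, hSA, hSspan, hSli⟩ := exists_linearIndependent K {v | M v}
  have hfin : S.Finite := hSli.setFinite
  have := hfin.fintype
  have hSc : ∀ i : S, M (i : V) := fun i => hSA i.2
  set φ := Fintype.equivFin S with hφ
  set N := Fintype.card S with hN
  set s : Fin N → V := fun i => (φ.symm i : V) with hs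
  have hsM : ∀ i, M (s i) := fun i => hSc _
  have hsli : LinearIndependent K s := hSli.comp φ.symm φ.symm.injective
  have hrange : Set.range s = S := by
    ext x
    constructor
    · rintro ⟨i, rfl⟩
      exact (φ.symm i).2
    · intro hx
      exact ⟨φ ⟨x, hx⟩, by simp [hs]⟩
  choose g hg using fun i k : Fin N => hrat _ _ (hsM i) (hsM k)
  set G : Matrix (Fin N) (Fin N) ℚ := Matrix.of g with hG
  have hspan : ∀ x, M x → x ∈ Submodule.span K (Set.range s) := by
    intro x hx
    rw [hrange, hSspan]
    exact Submodule.subset_span hx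
  have hcomb : ∀ (v : Fin N → ℚ) (k : Fin N), β (∑ i, (v i : K) • s i) (s k) =
      ((Matrix.vecMul v G k : ℚ) : K) := by
    intro v k
    rw [map_sum, LinearMap.sum_apply, Matrix.vecMul, dotProduct]
    push_cast
    refine Finset.sum_congr rfl fun i _ => ?_
    rw [map_smul, LinearMap.smul_apply, hg, smul_eq_mul]
    rfl
  have hinj : Function.Injective (Matrix.vecMulLinear G) := by
    rw [← LinearMap.ker_eq_bot, LinearMap.ker_eq_bot']
    intro v hv
    have h1 : ∑ i, (v i : K) • s i = 0 := by
      refine hnd _ (hM.sum _ fun i _ => hM.smul _ (hsM i)) fun y hy => ?_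
      have h2 := hspan y hy
      clear hy
      induction h2 using Submodule.span_induction with
      | mem y hy' =>
        obtain ⟨k, rfl⟩ := hy'
        rw [hcomb]
        have := congrFun hv k
        rw [Matrix.vecMulLinear_apply] at this
        rw [this, Pi.zero_apply, Rat.cast_zero]
      | zero => rw [map_zero]
      | add y z _ _ hy'' hz'' => rw [map_add, hy'', hz'', add_zero]
      | smul c y _ hy'' => rw [map_smul, hy'', smul_zero]
    funext i
    have h2 := Fintype.linearIndependent_iff.1 hsli (fun i => (v i : K)) h1 i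
    exact_mod_cast h2
  have hu : IsUnit G := by
    rw [← Matrix.vecMul_injective_iff_isUnit]
    exact hinj
  have hdet : IsUnit G.det := (Matrix.isUnit_iff_isUnit_det G).1 hu
  refine ⟨N, s, fun j => ∑ k, ((G⁻¹ k j : ℚ) : K) • s k, hsM,
    fun j => hM.sum _ fun k _ => hM.smul _ (hsM k), ?_, hspan⟩
  intro i j
  have h1 : ∑ k, G i k * G⁻¹ k j = if i = j then 1 else 0 := by
    have h2 := congrFun (congrFun (Matrix.mul_nonsing_inv G hdet) i) j
    rw [Matrix.mul_apply] at h2
    rw [h2, Matrix.one_apply]
  rw [map_sum]
  calc ∑ k, β (s i) (((G⁻¹ k j : ℚ) : K) • s k)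
      = ∑ k, (((G i k * G⁻¹ k j : ℚ)) : K) := by
        refine Finset.sum_congr rfl fun k _ => ?_
        rw [map_smul, hg, smul_eq_mul, mul_comm]
        push_cast
        rfl
    _ = ((∑ k, G i k * G⁻¹ k j : ℚ) : K) := by push_cast; rfl
    _ = _ := by
        rw [h1]
        split_ifs <;> simp

end Pool.Agent.TH132.A
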