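import Pool.Agent.TH132.A.Num

/-!
# The form of a polarized variety
-/

set_option autoImplicit false

open CategoryTheory AlgebraicGeometry

universe u v

namespace Pool.Agent.TH132.A

open Pool.Agent.H914 Pool.Agent.H914.VarClass Pool.Agent.H914.VarClass.Obj
  Pool.Agent.H914.WeilCohomology Pool.Agent.H281R3.HT Pool.Agent.W552

variable {k : Type u} [Field k] {𝒱 : VarClass k} {ops : CycleOps 𝒱}
  {W : WeilCohomology.{u, v} ops} {X Y : 𝒱.Obj}

/-- A divisor with a lowering operator. -/
structure Lw (W : WeilCohomology.{u, v} ops) (X : 𝒱.Obj) (D : X.Cycles)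
    (f : Module.End W.K (W.H X)) : Prop where
  hD : X.IsCyc 1 D
  sl2 : Sl2 (wt (W.isInternal X) X.dim) (LinearMap.mulLeft W.K (W.cl X D)) f

namespace Lw

variable {D : X.Cycles} {f : Module.End W.K (W.H X)} (F : Lw W X D f)

include F

lemma wt_w : wop W X D f * wt (W.isInternal X) X.dim =
    -(wt (W.isInternal X) X.dim * wop W X D f) := by
  exact wt_w_aux F.sl2.ef (wey_e F.sl2) (wey_f F.sl2)

lemma w_mem {i : ℕ} (hi : i ≤ 2 * X.dim) {a : W.H X} (ha : a ∈ W.gr X i) :
    wop W X D f a ∈ W.gr X (2 * X.dim - i) := by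
  have h1 := congrArg (fun G => G a) F.wt_w
  simp only [Module.End.mul_apply, LinearMap.neg_apply, Fr.wt_gr ha, map_smul] at h1
  have h2 : wt (W.isInternal X) X.dim (wop W X D f a) =
      ((X.dim : W.K) - i) • wop W X D f a := by
    rw [← neg_neg (wt (W.isInternal X) X.dim _), ← h1, ← neg_smul, neg_sub]
  refine (mem_gr_of_wt (W.isInternal X) W_hbd h2).1 _ ?_
  rw [Nat.cast_sub hi]
  push_cast
  ring

lemma bf_deg {i j : ℕ} {a b : W.H X} (ha : a ∈ W.gr X i) (hb : b ∈ W.gr X j) (hij : i ≠ j) :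
    bf W X D f a b = 0 := by
  by_cases hj : j ≤ 2 * X.dim
  · rw [bf_apply, st_apply hb, mul_smul_comm, map_smul,
      W.tr_eq_zero (W.mul_mem ha (F.w_mem hj hb)) (by omega), smul_zero]
  · rw [W.gr_eq_bot X j (by omega)] at hb
    rw [(Submodule.mem_bot _).1 hb, map_zero]

/-- The form on a product. -/
theorem bf_ext {E : Y.Cycles} {f' : Module.End W.K (W.H Y)} (G : Lw W Y E f') (a a' : W.H X)
    (b b' : W.H Y) :
    bf W (X.prod Y) (ops.pull (fst X Y) D + ops.pull (snd X Y) E) (extSum W f f')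
      (ext W a b) (ext W a' b') = bf W X D f a a' * bf W Y E f' b b' := by
  refine gr_induction (W.isInternal Y) (p := fun b => bf W (X.prod Y)
    (ops.pull (fst X Y) D + ops.pull (snd X Y) E) (extSum W f f')
      (ext W a b) (ext W a' b') = bf W X D f a a' * bf W Y E f' b b') ?_ ?_ b
  swap
  · intro b c hb hc
    rw [show ext W a (b + c) = ext W a b + ext W a c by simp only [ext, map_add, mul_add],
      map_add, LinearMap.add_apply, hb, hc, map_add, LinearMap.add_apply, mul_add]
  intro j b hb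
  refine gr_induction (W.isInternal X) (p := fun a' => bf W (X.prod Y)
    (ops.pull (fst X Y) D + ops.pull (snd X Y) E) (extSum W f f')
      (ext W a b) (ext W a' b') = bf W X D f a a' * bf W Y E f' b b') ?_ ?_ a'
  swap
  · intro a' c hb hc
    rw [show ext W (a' + c) b' = ext W a' b' + ext W c b' by simp only [ext, map_add, add_mul],
      map_add, hb, hc, map_add, add_mul]
  intro i' a' ha'
  refine gr_induction (W.isInternal Y) (p := fun b' => bf W (X.prod Y)
    (ops.pull (fst X Y) D + ops.pull (snd X Y) E) (extSum W f f')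
      (ext W a b) (ext W a' b') = bf W X D f a a' * bf W Y E f' b b') ?_ ?_ b'
  swap
  · intro b' c hb hc
    rw [show ext W a' (b' + c) = ext W a' b' + ext W a' c by simp only [ext, map_add, mul_add],
      map_add, hb, hc, map_add, mul_add]
  intro j' b' hb'
  have hmem : ext W a' b' ∈ W.gr (X.prod Y) (i' + j') :=
    W.mul_mem (W.map_mem _ ha') (W.map_mem _ hb')
  by_cases hi' : i' ≤ 2 * X.dim
  swap
  · rw [W.gr_eq_bot X i' (by omega)] at ha'
    rw [(Submodule.mem_bot _).1 ha']
    simp [ext]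
  by_cases hjj : j = j'
  · subst hjj
    rw [bf_apply, st_apply hmem, mul_smul_comm, map_smul, ext, ext,
      form_mul F.sl2 G.sl2 G.hD hb (F.w_mem hi' ha'), bf_apply, bf_apply, st_apply ha',
      st_apply hb', mul_smul_comm, mul_smul_comm, map_smul, map_smul, sg_add]
    simp only [smul_eq_mul]
    have h1 : (-1 : W.K) ^ (j * (2 * X.dim - i')) = (-1) ^ (i' * j) := by
      have h2 : (-1 : W.K) ^ (j * (2 * X.dim - i')) * (-1) ^ (i' * j) = 1 := by
        rw [← pow_add, show j * (2 * X.dim - i') + i' * j = j * (2 * X.dim - i' + i') by ring,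
          show 2 * X.dim - i' + i' = 2 * X.dim by omega, mul_left_comm, pow_mul]
        simp
      have h3 : (-1 : W.K) ^ (i' * j) * (-1) ^ (i' * j) = 1 := by rw [← mul_pow]; simp
      calc (-1 : W.K) ^ (j * (2 * X.dim - i')) =
          (-1 : W.K) ^ (j * (2 * X.dim - i')) * ((-1 : W.K) ^ (i' * j) * (-1) ^ (i' * j)) := by
            rw [h3, mul_one]
        _ = _ := by rw [← mul_assoc, h2, one_mul]
    rw [h1]
    push_cast
    have h3 : (-1 : W.K) ^ (i' * j) * (-1) ^ (i' * j) = 1 := by rw [← mul_pow]; simp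
    linear_combination ((sg i' : W.K) * (sg j : W.K) * (W.tr X (a * wop W X D f a') *
      W.tr Y (b * wop W Y E f' b'))) * h3
  · rw [G.bf_deg hb hb' hjj, mul_zero, bf_apply, st_apply hmem, mul_smul_comm, map_smul, ext,
      ext, form_mul F.sl2 G.sl2 G.hD hb (F.w_mem hi' ha')]
    have h0 := G.bf_deg hb hb' hjj
    rw [bf_apply, st_apply hb', mul_smul_comm, map_smul, smul_eq_mul] at h0
    rcases mul_eq_zero.1 h0 with h1 | h1
    · exfalso
      have h2 : (sg j' : W.K) * (sg j' : W.K) = 1 := by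
        have := congrArg (Int.cast (R := W.K)) (sg_sq j')
        push_cast at this
        exact this
      rw [h1, mul_zero] at h2
      exact zero_ne_one h2
    · rw [h1]; simp

/-- The value of the form on a primitive algebraic class. -/
lemma form_prim {j : ℕ} (hj : 2 * j ≤ X.dim) {z : X.Cycles} (hz : X.IsCyc j z)
    (hprim : W.cl X (divPow ops D (X.dim - 2 * j + 1) z) = 0) :
    bf W X D f (W.cl X z) (W.cl X z) = (((-1) ^ j * (((X.dim - 2 * j).factorial : ℚ)⁻¹ *
        X.V.degCycle (ops.mul z (divPow ops D (X.dim - 2 * j) z))) : ℚ) : W.K) := by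
  set L : Module.End W.K (W.H X) := LinearMap.mulLeft W.K (W.cl X D) with hLdef
  have hcg : W.cl X z ∈ W.gr X (2 * j) := W.cl_mem hz
  have hwt : wt (W.isInternal X) X.dim (W.cl X z) =
      -((X.dim - 2 * j : ℕ) : W.K) • W.cl X z := by
    rw [wt, scal_apply _ _ hcg, node]
    congr 1
    rw [Nat.cast_sub hj]
    push_cast
    ring
  have hfz : f (W.cl X z) = 0 := by
    apply F.sl2.f_eq_zero hwt
    rw [← cl_divPow]
    exact hprim
  have h4 := wey_lowest F.sl2 hfz hwt
  rw [bf_apply, st_apply hcg, wop, h4, smul_comm, mul_smul_comm, map_smul, mul_smul_comm,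
    map_smul, ← cl_divPow, ← W.cl_mul, W.tr_cl, sg_two_mul]
  · simp only [smul_eq_mul]
    push_cast
    ring
  · have := ops.mul_mem hz (divPow_mem (ops := ops) F.hD (X.dim - 2 * j) hz)
    rwa [show j + (j + (X.dim - 2 * j)) = X.dim by omega] at this


/-- The product. -/
lemma prod {E : Y.Cycles} {f' : Module.End W.K (W.H Y)} (G : Lw W Y E f') :
    Lw W (X.prod Y) (ops.pull (fst X Y) D + ops.pull (snd X Y) E) (extSum W f f') where
  hD := SmVar.IsCyc.add (ops.pull_mem _ F.hD) (ops.pull_mem _ G.hD)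
  sl2 := by
    rw [wt_prod, mulLeft_prod G.hD]
    exact sl2_prod F.sl2 G.sl2

end Lw

end Pool.Agent.TH132.A
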