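import Pool.Agent.TH132.A.Deep

/-!
# The coefficients of primitive algebraic classes on a product
-/

set_option autoImplicit false

open CategoryTheory AlgebraicGeometry

universe u v

namespace Pool.Agent.TH132.A

open Pool.Agent.H914 Pool.Agent.H914.VarClass Pool.Agent.H914.VarClass.Obj
  Pool.Agent.H914.WeilCohomology Pool.Agent.H281R3.HT Pool.Agent.W552

variable {k : Type u} [Field k] {𝒱 : VarClass k} {ops : CycleOps 𝒱}
  {W : WeilCohomology.{u, v} ops} {X U : 𝒱.Obj} {D : X.Cycles} {B : U.Cycles}
  {f : Module.End W.K (W.H X)} {g : Module.End W.K (W.H U)}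

/-- Operators on the second factor act on the coefficients. -/
lemma coef_extR {b : W.H X} (hb : AS W X b) (T : Module.End W.K (W.H U))
    (z : W.H (X.prod U)) : coef W b (extR W X U T z) = T (coef W b z) := by
  refine W.kunneth_induction (p := fun z => coef W b (extR W X U T z) = T (coef W b z)) ?_ ?_ z
  · intro x y hx hy
    have e : ∀ x y : W.H (X.prod U), coef W b (x + y) = coef W b x + coef W b y := by
      intro x y
      rw [coef, coef, coef, add_mul, map_add]
    rw [map_add, e, e, hx, hy, map_add]
  · intro i j x _ y _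
    have e : ∀ (x : W.H X) (y : W.H U), coef W b (W.map (fst X U) x * W.map (snd X U) y) =
        W.tr X (x * b) • y := by
      intro x y
      rw [coef, mul_assoc, ← (hb.map (fst X U)).comm (W.map (snd X U) y), ← mul_assoc, ← map_mul,
        W.push_snd]
    rw [extR_apply, extOp_tmul, Module.End.one_apply, e, e, map_smul]

/-- The combinations of the classes `A (e ^ s z)`. -/
noncomputable def orb (W : WeilCohomology.{u, v} ops) {X U : 𝒱.Obj} (D : X.Cycles) (B : U.Cycles)
    (f : Module.End W.K (W.H X)) (z : W.H (X.prod U)) : AddSubmonoid (W.H (X.prod U)) :=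
  AddSubmonoid.closure {w | ∃ A ∈ words W X D f, ∃ (s : ℕ) (q : ℚ), w = (q : W.K) •
    (extL W X U A ((extR W X U (LinearMap.mulLeft W.K (W.cl U B)) ^ s) z))}

lemma orb_smul {z : W.H (X.prod U)} (q : ℚ) {w : W.H (X.prod U)} (hw : w ∈ orb W D B f z) :
    (q : W.K) • w ∈ orb W D B f z := by
  induction hw using AddSubmonoid.closure_induction with
  | mem w hw =>
    obtain ⟨A, hA, s, q', rfl⟩ := hw
    refine AddSubmonoid.subset_closure ⟨A, hA, s, q * q', ?_⟩
    rw [smul_smul, Rat.cast_mul]
  | zero => rw [smul_zero]; exact AddSubmonoid.zero_mem _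
  | add x y _ _ hx hy => rw [smul_add]; exact AddSubmonoid.add_mem _ hx hy

lemma orb_e {z : W.H (X.prod U)} {w : W.H (X.prod U)} (hw : w ∈ orb W D B f z) :
    extR W X U (LinearMap.mulLeft W.K (W.cl U B)) w ∈ orb W D B f z := by
  induction hw using AddSubmonoid.closure_induction with
  | mem w hw =>
    obtain ⟨A, hA, s, q, rfl⟩ := hw
    refine AddSubmonoid.subset_closure ⟨A, hA, s + 1, q, ?_⟩
    rw [map_smul, ← Module.End.mul_apply, ← (ext_commute A _).eq, Module.End.mul_apply,
      ← Module.End.mul_apply (extR W X U _), ← pow_succ']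
  | zero => rw [map_zero]; exact AddSubmonoid.zero_mem _
  | add x y _ _ hx hy => rw [map_add]; exact AddSubmonoid.add_mem _ hx hy

/-- The lowering operator of the second factor preserves `orb` for a primitive class. -/
lemma orb_f (tf : Lw W X D f) (tg : Lw W U B g) {z : W.H (X.prod U)} {c : ℤ}
    (h0 : extSum W f g z = 0)
    (hc : extSum W (wt (W.isInternal X) X.dim) (wt (W.isInternal U) U.dim) z = (c : W.K) • z)
    {w : W.H (X.prod U)} (hw : w ∈ orb W D B f z) : extR W X U g w ∈ orb W D B f z := by
  set eU := extR W X U (LinearMap.mulLeft W.K (W.cl U B)) with heU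
  set fU := extR W X U g with hfU
  set hU := extR W X U (wt (W.isInternal U) U.dim) with hhU
  set eX := extL W X U (LinearMap.mulLeft W.K (W.cl X D)) with heX
  set fX := extL W X U f with hfX
  set hX := extL W X U (wt (W.isInternal X) X.dim) with hhX
  have t : Sl2 hU eU fU := tg.sl2.map (extR W X U)
  have hXe : hX = eX * fX - fX * eX := by
    rw [hhX, heX, hfX, ← map_mul, ← map_mul, ← map_sub, tf.sl2.ef]
  have hfz : fU z = -(fX z) := by
    rw [extSum, LinearMap.add_apply] at h0
    exact (neg_eq_of_add_eq_zero_right h0).symm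
  have hhz : hU z = (c : W.K) • z - hX z := by
    rw [extSum, LinearMap.add_apply] at hc
    rw [← hc]
    abel
  have hcomm : ∀ A : Module.End W.K (W.H X), ∀ T : Module.End W.K (W.H U), ∀ y,
      extR W X U T (extL W X U A y) = extL W X U A (extR W X U T y) := by
    intro A T y
    rw [← Module.End.mul_apply, ← (ext_commute A T).eq, Module.End.mul_apply]
  have hcommp : ∀ A : Module.End W.K (W.H X), ∀ s : ℕ, ∀ y,
      (eU ^ s) (extL W X U A y) = extL W X U A ((eU ^ s) y) := by
    intro A s y
    rw [heU, ← map_pow]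
    exact hcomm A _ y
  -- the generators
  have gen : ∀ A ∈ words W X D f, ∀ s : ℕ, extL W X U A ((eU ^ s) z) ∈ orb W D B f z := by
    intro A hA s
    refine AddSubmonoid.subset_closure ⟨A, hA, s, 1, ?_⟩
    rw [Rat.cast_one, one_smul]
  have key : ∀ A ∈ words W X D f, ∀ s : ℕ,
      extL W X U A (fU ((eU ^ s) z)) ∈ orb W D B f z := by
    intro A hA s
    cases s with
    | zero =>
      rw [pow_zero, Module.End.one_apply, hfz, map_neg, hfX, ← Module.End.mul_apply, ← map_mul]
      have h1 := orb_smul (-1) (gen (A * f) (Submonoid.mul_mem _ hA f_words) 0)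
      rwa [Rat.cast_neg, Rat.cast_one, neg_one_smul, pow_zero, Module.End.one_apply] at h1
    | succ s =>
      have h1 := congrArg (fun G => G z) (t.e_pow_f s)
      have h2 := congrArg (fun G => G z) (t.e_pow_h s)
      simp only [Module.End.mul_apply, LinearMap.add_apply, LinearMap.smul_apply,
        LinearMap.sub_apply] at h1 h2
      have h3 : ∀ y : W.H (X.prod U), (2 : Module.End W.K (W.H (X.prod U)))
          ((s : Module.End W.K (W.H (X.prod U))) y) = ((2 * s : ℕ) : W.K) • y := by
        intro y
        rw [← Module.End.mul_apply]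
        have : (2 * (s : Module.End W.K (W.H (X.prod U)))) =
            ((2 * s : ℕ) : Module.End W.K (W.H (X.prod U))) := by push_cast; rfl
        rw [this, Module.End.natCast_apply, ← Nat.cast_smul_eq_nsmul W.K]
      have h4 : ∀ y : W.H (X.prod U), (s : Module.End W.K (W.H (X.prod U))) y =
          (s : W.K) • y := by
        intro y
        rw [Module.End.natCast_apply, ← Nat.cast_smul_eq_nsmul W.K]
      -- `hU (eU ^ s z)`
      have h5 : hU ((eU ^ s) z) = ((c : W.K) + 2 * s) • (eU ^ s) z - hX ((eU ^ s) z) := by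
        rw [hhz, map_sub, map_smul, hhX, hcommp, ← hhX, h3] at h2
        have h6 : hU ((eU ^ s) z) = (c : W.K) • (eU ^ s) z - hX ((eU ^ s) z) +
            ((2 * s : ℕ) : W.K) • (eU ^ s) z := by
          rw [h2]
          abel
        rw [h6, add_smul]
        push_cast
        abel
      have h7 : fU ((eU ^ (s + 1)) z) = (-1 : W.K) • fX ((eU ^ (s + 1)) z) -
          (((s : W.K) + 1) * (c + s)) • (eU ^ s) z + ((s : W.K) + 1) • hX ((eU ^ s) z) := by
        rw [hfz, map_neg, hfX, hcommp, ← hfX, h4, h5, ← Nat.cast_smul_eq_nsmul W.K] at h1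
        have h8 : fU ((eU ^ (s + 1)) z) = -(fX ((eU ^ (s + 1)) z)) -
            ((s + 1 : ℕ) : W.K) • (((c : W.K) + 2 * s) • (eU ^ s) z - hX ((eU ^ s) z) -
              (s : W.K) • (eU ^ s) z) := by
          rw [h1]
          abel
        rw [h8]
        push_cast
        rw [neg_one_smul]
        module
      rw [h7, map_add, map_sub, map_smul, map_smul, map_smul, hXe, LinearMap.sub_apply, map_sub,
        hfX, heX]
      have g1 := orb_smul (-1) (gen (A * f) (Submonoid.mul_mem _ hA f_words) (s + 1))
      have g2 := orb_smul (-(((s : ℚ) + 1) * (c + s))) (gen A hA s)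
      have g3 := orb_smul ((s : ℚ) + 1) (gen (A * (LinearMap.mulLeft W.K (W.cl X D) * f))
        (Submonoid.mul_mem _ hA (Submonoid.mul_mem _ e_words f_words)) s)
      have g4 := orb_smul (-((s : ℚ) + 1)) (gen (A * (f * LinearMap.mulLeft W.K (W.cl X D)))
        (Submonoid.mul_mem _ hA (Submonoid.mul_mem _ f_words e_words)) s)
      have g5 := AddSubmonoid.add_mem _ (AddSubmonoid.add_mem _ g1 g2)
        (AddSubmonoid.add_mem _ g3 g4)
      push_cast at g5
      simp only [map_mul, Module.End.mul_apply] at g5 ⊢
      convert g5 using 1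
      module
  induction hw using AddSubmonoid.closure_induction with
  | mem w hw =>
    obtain ⟨A, hA, s, q, rfl⟩ := hw
    rw [map_smul, hfU, hcomm, ← hfU]
    exact orb_smul q (key A hA s)
  | zero => rw [map_zero]; exact AddSubmonoid.zero_mem _
  | add x y _ _ hx hy => rw [map_add]; exact AddSubmonoid.add_mem _ hx hy

/-- Operators of the first factor preserve sums of algebraic classes. -/
lemma extL_AS (hS : ∀ z, AS W (X.prod U) z → z ∈ tens W X U) (hD : X.IsCyc 1 D)
    (hf : Stable W X f) {A : Module.End W.K (W.H X)} (hA : A ∈ words W X D f)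
    {z : W.H (X.prod U)} (hz : AS W (X.prod U) z) : AS W (X.prod U) (extL W X U A z) := by
  have h1 := hS z hz
  clear hz
  induction h1 using AddSubmonoid.closure_induction with
  | mem w hw =>
    obtain ⟨x, y, hx, hy, rfl⟩ := hw
    rw [ext, extL_apply, extOp_tmul, Module.End.one_apply]
    exact AS.ext (deep_of_stable hD hf hx A hA) hy
  | zero => rw [map_zero]; exact AS.zero
  | add x y _ _ hx hy => rw [map_add]; exact hx.add hy

lemma extR_e_AS (hB : U.IsCyc 1 B) {z : W.H (X.prod U)} (hz : AS W (X.prod U) z) :
    AS W (X.prod U) (extR W X U (LinearMap.mulLeft W.K (W.cl U B)) z) := by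
  have e : extR W X U (LinearMap.mulLeft W.K (W.cl U B)) z = W.map (snd X U) (W.cl U B) * z := by
    refine W.kunneth_induction (p := fun z => extR W X U (LinearMap.mulLeft W.K (W.cl U B)) z =
      W.map (snd X U) (W.cl U B) * z) ?_ ?_ z
    · intro a b ha hb
      rw [map_add, ha, hb, mul_add]
    · intro i j a _ b _
      rw [extR_apply, extOp_tmul, Module.End.one_apply, LinearMap.mulLeft_apply, map_mul,
        ← mul_assoc, ← mul_assoc, ((AS.of ⟨B, hB, rfl⟩).map (snd X U)).comm]
  rw [e]
  exact ((AS.of ⟨B, hB, rfl⟩).map _).mul hz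

/-- **The coefficients of a primitive algebraic class on `X × U` are in the largest rational
Lefschetz structure in the algebraic classes of `U`.** -/
theorem deep_coef (hS : ∀ z, AS W (X.prod U) z → z ∈ tens W X U) (tf : Lw W X D f)
    (tg : Lw W U B g) (hf : Stable W X f) {z : W.H (X.prod U)} {c : ℤ}
    (hz : AS W (X.prod U) z) (h0 : extSum W f g z = 0)
    (hc : extSum W (wt (W.isInternal X) X.dim) (wt (W.isInternal U) U.dim) z = (c : W.K) • z)
    {b : W.H X} (hb : AS W X b) : Deep W U B g (coef W b z) := by
  have hP : ∀ T ∈ words W U B g, ∀ w ∈ orb W D B f z, extR W X U T w ∈ orb W D B f z := by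
    intro T hT
    induction hT using Submonoid.closure_induction with
    | mem T hT =>
      rcases hT with rfl | rfl
      · exact fun w hw => orb_e hw
      · exact fun w hw => orb_f tf tg h0 hc hw
    | one =>
      intro w hw
      rwa [map_one, Module.End.one_apply]
    | mul S T _ _ hS' hT' =>
      intro w hw
      rw [map_mul, Module.End.mul_apply]
      exact hS' _ (hT' _ hw)
  have hzP : z ∈ orb W D B f z := by
    refine AddSubmonoid.subset_closure ⟨1, Submonoid.one_mem _, 0, 1, ?_⟩
    rw [pow_zero, map_one, Module.End.one_apply, Module.End.one_apply, Rat.cast_one, one_smul]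
  have hAS : ∀ w ∈ orb W D B f z, AS W (X.prod U) w := by
    intro w hw
    induction hw using AddSubmonoid.closure_induction with
    | mem w hw =>
      obtain ⟨A, hA, s, q, rfl⟩ := hw
      refine AS.smul q (extL_AS hS tf.hD hf hA ?_)
      induction s with
      | zero => exact hz
      | succ s ih => rw [pow_succ', Module.End.mul_apply]; exact extR_e_AS tg.hD ih
    | zero => exact AS.zero
    | add x y _ _ hx hy => exact hx.add hy
  intro T hT
  rw [← coef_extR hb]
  exact coef_AS hb (hAS _ (hP T hT _ hzP))

end Pool.Agent.TH132.A
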