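import Pool.Agent.H281R3.HT.Defs

/-!
# Products of several polarized varieties
-/

set_option autoImplicit false

universe u

namespace Pool.Agent.TH132.A

open Pool.Agent.H914 Pool.Agent.H281R3.HT

/-- The products `P i × (P j × (⋯ × P k))` of polarized varieties of the family `P`, with any
number of factors, with the sum of the pull-backs of the divisors. -/
inductive IsPower {k : Type u} [Field k] {𝒱 : VarClass k} (ops : CycleOps 𝒱) {I : Type}
    (P : I → Polarized 𝒱) : Polarized 𝒱 → Prop
  | base i : IsPower ops P (P i)
  | prod i Q : IsPower ops P Q → IsPower ops P ((P i).prod ops Q)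

end Pool.Agent.TH132.A
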