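import Pool.Agent.TH132.A.Hodge
import Pool.Agent.TH132.A.HDefs
import Pool.Agent.TH132.A.Tate
import Pool.Agent.W458.RK.Final
import Pool.Agent.W458.MF.Gen10

/-!
# The conjecture of Hodge type for the products of almost all members with all varieties of small
rank
-/

set_option autoImplicit false

open CategoryTheory AlgebraicGeometry

universe u v

namespace Pool.Agent.TH132.A

open Pool.Agent.H914 Pool.Agent.H914.VarClass Pool.Agent.H914.VarClass.Obj
  Pool.Agent.H914.WeilCohomology Pool.Agent.H281R3.HT Pool.Agent.W552 Pool.Agent.W534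
  Pool.Agent.W458.RK Pool.Agent.W458.MF

variable {k : Type u} [Field k] {𝒱 : VarClass k} {ops : CycleOps 𝒱}

section

variable {W : WeilCohomology.{u, v} ops} {X : 𝒱.Obj}

/-- Hard Lefschetz follows from the existence of the lowering operator. -/
lemma Lw.hl {D : X.Cycles} {f : Module.End W.K (W.H X)} (F : Lw W X D f) :
    HardLefschetz W X D := by
  refine hardLefschetz_of_inj F.hD fun i hi a ha h0 => ?_
  by_contra hne
  have hwt : wt (W.isInternal X) X.dim a = -((X.dim - i : ℕ) : W.K) • a := by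
    rw [Fr.wt_gr ha]
    congr 1
    rw [Nat.cast_sub hi]
    ring
  have hf : f a = 0 := by
    refine F.sl2.f_eq_zero hwt ?_
    rw [pow_succ', Module.End.mul_apply, h0, map_zero]
  exact Sl2.e_pow_ne F.sl2 hf hwt hne le_rfl h0

lemma exists_nest {I : Type} {P : I → Polarized 𝒱} {Q : Polarized 𝒱} (h : IsPower ops P Q) :
    ∃ (n : ℕ) (a : Fin (n + 1) → I), Q = nest ops n fun j => P (a j) := by
  induction h with
  | base i => exact ⟨0, fun _ => i, rfl⟩
  | prod i Q _ ih =>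
    obtain ⟨n, a, rfl⟩ := ih
    exact ⟨n + 1, Fin.cons i a, rfl⟩

lemma nest_lw : ∀ (n : ℕ) (P : Fin (n + 1) → Polarized 𝒱),
    (∀ i, ∃ f, Lw W (P i).X (P i).D f) → ∃ f, Lw W (nest ops n P).X (nest ops n P).D f
  | 0, _, h => h 0
  | n + 1, P, h => by
    obtain ⟨f, F⟩ := h 0
    obtain ⟨g, G⟩ := nest_lw n (fun i => P i.succ) fun i => h i.succ
    exact ⟨_, F.prod G⟩

lemma one_prod_ne {U : 𝒱.Obj} (hX : (1 : W.H X) ≠ 0) (hU : (1 : W.H U) ≠ 0) :
    (1 : W.H (X.prod U)) ≠ 0 := by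
  intro h0
  apply hX
  refine ext_one_inj (U := U) hU ?_
  rw [ext, map_one, map_one, mul_one, h0]

lemma nest_one : ∀ (n : ℕ) (P : Fin (n + 1) → Polarized 𝒱),
    (∀ i, (1 : W.H (P i).X) ≠ 0) → (1 : W.H (nest ops n P).X) ≠ 0
  | 0, _, h => h 0
  | n + 1, P, h => one_prod_ne (h 0) (nest_one n (fun i => P i.succ) fun i => h i.succ)

lemma nest_isProductOf {S : Set 𝒱.Obj} : ∀ (n : ℕ) (P : Fin (n + 1) → Polarized 𝒱),
    (∀ i, (P i).X ∈ S) → IsProductOf S (nest ops n P).X
  | 0, _, h => IsProductOf.base (h 0)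
  | n + 1, P, h => IsProductOf.prod (IsProductOf.base (h 0))
      (nest_isProductOf n (fun i => P i.succ) fun i => h i.succ)

lemma one_ne_of_deg {D : X.Cycles} (hD : X.IsCyc 1 D)
    (h : 0 < X.V.degCycle (divPow ops D X.dim X.V.fundCycle)) : (1 : W.H X) ≠ 0 := by
  intro h0
  have h1 := divPow_mem (ops := ops) hD X.dim X.V.fundCycle_mem
  rw [zero_add] at h1
  have h2 := W.tr_cl h1
  rw [← mul_one (W.cl X _), h0, mul_zero, map_zero] at h2
  rw [← Rat.cast_zero] at h2
  rw [← Rat.cast_injective (α := W.K) h2] at h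
  exact lt_irrefl _ h

variable {p : ℕ} {Φ : FrobSystem W p} {σ : W.K →+* ℂ} {E : Subfield ℂ} {r : ℕ}

/-- For **all** varieties `U.X` such that the eigenvalues of the Frobenius endomorphism on the
cohomology of `U.X` have rank at most `r` over `E`, and all divisors `U.D` on `U.X` which satisfy
the hard Lefschetz theorem: the standard conjecture of Hodge type holds for `X.X × U.X` and the
divisor `X.D × U.X + X.X × U.D` if and only if it holds for `U.X` and `U.D`. -/
def HodgeTypeTimes (Φ : FrobSystem W p) (σ : W.K →+* ℂ) (E : Subfield ℂ)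
    (r : ℕ) (X : Polarized 𝒱) : Prop :=
  ∀ U : Polarized 𝒱, EigenvaluesOfRank σ E r (W.map (Φ.Fr U.X)).toLinearMap →
    U.X.IsCyc 1 U.D → HardLefschetz W U.X U.D →
      (Pol.HodgeTypeFor W (X.prod ops U).X (X.prod ops U).D (fun _ => True) ↔
        Pol.HodgeTypeFor W U.X U.D fun _ => True)

/-- The reduction of the conjecture of Hodge type for the products with all varieties of small
rank. -/
theorem hodgeTypeTimes_of [IsAlgClosed W.K] (hp : 1 < p) {Q : Polarized 𝒱}
    (hT : TateTimes Φ σ E r Q.X) (hQ : ∃ f, Lw W Q.X Q.D f) (h1 : (1 : W.H Q.X) ≠ 0)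
    (hH : HodgeType W Q.X Q.D) : HodgeTypeTimes Φ σ E r Q := by
  rintro ⟨U, B⟩ hU hB hHL
  obtain ⟨f₀, F₀⟩ := hQ
  obtain ⟨f, F, hf⟩ := exists_lw F₀.hD F₀.hl
  obtain ⟨g, G, hg⟩ := exists_lw hB hHL
  have hst : Stable W Q.X f := stable_of_lefschetzA F.hD F.sl2
    (lefschetzA_of_D F.hD F.hl (homEqNum_of_tateTimes hp hT))
  have e : ∀ (X : 𝒱.Obj) (D : X.Cycles), Pol.HodgeTypeFor W X D (fun _ => True) ↔
      HodgeType W X D := fun X D => ⟨fun h j hj z hz => h j hj z hz trivial,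
    fun h j hj z hz _ => h j hj z hz⟩
  rw [e, e]
  exact ⟨fun h => hodge_of_prod F G hH h1 h, fun h => hodge_prod_of
    (fun z hz => tens_of_tateTimes hp hT hU hz) F hf F.hl hst hH G hg h⟩

end

/-- **The conjecture of Hodge type for the products of almost all members with all varieties of
small rank.** -/
theorem final_hodge_times (W : WeilCohomology.{u, v} ops) [IsAlgClosed W.K] (σ : W.K →+* ℂ)
    (p : ℕ) (hp : p.Prime) (Φ : FrobSystem W p) (Y : 𝒱.Obj) (hY : ∀ x : W.H Y, x ∈ algSpan W Y)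
    {I : Type} [Fintype I] (F : I → Family W Y) (e : I → ℕ)
    (hF : ∀ i, Pol.HasLargeMonodromy (F i) Φ (e i)) (E : Subfield ℂ) [NumberField E] (r : ℕ)
    (hr : ∀ i m (s : (F i).S m), r < ((F i).member m s).pol.natDegree) (ε : ℝ) (hε : 0 < ε) :
    ∃ m₀ : ℕ, ∀ m ≥ m₀, ({s : ∀ i, (F i).S m |
        ¬ ∀ D : ∀ i, ((F i).member m (s i)).obj.Cycles,
          (∀ i, Pol.IsPolarization ((F i).member m (s i)) Φ m (e i) (D i)) →
            ∀ Q, IsPower ops (fun i => ⟨((F i).member m (s i)).obj, D i⟩) Q →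
              HodgeTypeTimes Φ σ E r Q}.ncard : ℝ) ≤
      ε * ∏ i, (Nat.card ((F i).S m) : ℝ) := by
  classical
  obtain ⟨m₁, h1⟩ := final_tate_times W σ p hp Φ Y hY F e hF E r hr (ε / 2) (half_pos hε)
  obtain ⟨m₂, h2⟩ := final_hodge W σ p hp Φ Y hY F e hF (ε / 2) (half_pos hε)
  refine ⟨max m₁ m₂, fun m hm => ?_⟩
  have h3 := h1 m (le_trans (le_max_left _ _) hm)
  have h4 := h2 m (le_trans (le_max_right _ _) hm)
  refine le_trans ?_ (le_trans (add_le_add h3 h4) (le_of_eq (by ring)))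
  rw [← Nat.cast_add, Nat.cast_le]
  refine le_trans (Set.ncard_le_ncard ?_ (Set.toFinite _)) (Set.ncard_union_le _ _)
  intro s hs
  by_contra hns
  rw [Set.mem_union, not_or] at hns
  obtain ⟨hs1, hs2⟩ := hns
  rw [Set.mem_ofPred_eq, not_not] at hs2
  refine hs fun D hD Q hQ => ?_
  obtain ⟨n, a, rfl⟩ := exists_nest hQ
  have hT : ∀ X, IsProductOf ({Y} ∪ Set.range fun i => ((F i).member m (s i)).obj) X →
      TateTimes Φ σ E r X := by
    by_contra hne
    exact hs1 ⟨fun i => (hD i).tate, hne⟩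
  refine hodgeTypeTimes_of hp.one_lt (hT _ (nest_isProductOf n _ fun i => Or.inr ⟨a i, rfl⟩))
    (nest_lw n _ fun i => ?_) (nest_one n _ fun i => one_ne_of_deg (hD (a i)).div
      (hD (a i)).degree) (fun j hj z hz h1 h2 => hs2 D hD n a j hj z hz trivial h1 h2)
  obtain ⟨f, Ff, -⟩ := exists_lw (hD (a i)).div (hD (a i)).hardLef
  exact ⟨f, Ff⟩

end Pool.Agent.TH132.A
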