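import Pool.Agent.TH132.A.HDeep

/-!
# The conjecture of Hodge type for a product on which all algebraic classes split
-/

set_option autoImplicit false

open CategoryTheory AlgebraicGeometry

universe u v

namespace Pool.Agent.TH132.A

open Pool.Agent.H914 Pool.Agent.H914.VarClass Pool.Agent.H914.VarClass.Obj
  Pool.Agent.H914.WeilCohomology Pool.Agent.H281R3.HT Pool.Agent.W552

variable {k : Type u} [Field k] {𝒱 : VarClass k} {ops : CycleOps 𝒱}
  {W : WeilCohomology.{u, v} ops} {X U : 𝒱.Obj} {D : X.Cycles} {B : U.Cycles}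
  {f : Module.End W.K (W.H X)} {g : Module.End W.K (W.H U)}

lemma exists_lw {D : X.Cycles} (hD : X.IsCyc 1 D) (hHL : HardLefschetz W X D) :
    ∃ f, Lw W X D f ∧ IsHom (W.gr X) (-2) f := by
  obtain ⟨f, t, hf, -⟩ := exists_sl2 (W.isInternal X) (mulLeft_isHom hD) W_hbd hHL
  exact ⟨f, ⟨hD, t⟩, hf⟩

/-- An orthogonal family of algebraic classes with its dual family. -/
lemma exists_orthoFam (tf : Lw W X D f) (hfX : IsHom (W.gr X) (-2) f)
    (hHL : HardLefschetz W X D) (hf : Stable W X f) (hH : HodgeType W X D) :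
    ∃ (N : ℕ) (a b : Fin N → W.H X) (w : Fin N → ℚ), DualFam W X a b ∧ (∀ k, 0 < w k) ∧
      ∀ k l, bf W X D f (a k) (a l) = if k = l then (w k : W.K) else 0 := by
  obtain ⟨N, ε, w, hε, hw, horth, hspan⟩ := exists_ratBasis (AS.ratSub (W := W) (X := X))
    (bf W X D f)
    (fun x y hx hy => tf.bf_rat hfX (deep_of_stable tf.hD hf hx) (deep_of_stable tf.hD hf hy))
    (fun x y hx hy => tf.bf_symm hHL hx hy)
    (fun x hx hx0 => tf.bf_pos hfX hH (deep_of_stable tf.hD hf hx) hx0)
  have hst : ∀ y, AS W X y → AS W X (st W X D f y) := by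
    intro y hy
    rw [Fr.AS_sum hy, map_sum]
    refine AS.ratSub.sum _ fun j _ => ?_
    rw [st_apply (alg_gr (hy.proj j))]
    have := (tf.deep_wop (deep_of_stable tf.hD hf (AS.of (hy.proj j)))).as.smul
      (sg (2 * j) : ℚ)
    simpa using this
  refine ⟨N, ε, fun k => (((w k)⁻¹ : ℚ) : W.K) • st W X D f (ε k), w,
    ⟨hε, fun k => (hst _ (hε k)).smul _, ?_, ?_⟩, hw, horth⟩
  · intro i j
    rw [mul_smul_comm, map_smul, ← bf_apply, horth]
    split_ifs with hij
    · subst hij
      rw [smul_eq_mul, ← Rat.cast_mul, inv_mul_cancel₀ (hw i).ne', Rat.cast_one]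
    · rw [smul_zero]
  · intro x hx
    obtain ⟨r, hr⟩ := hspan x (Submodule.subset_span hx) fun k =>
      tf.bf_rat hfX (deep_of_stable tf.hD hf hx) (deep_of_stable tf.hD hf (hε k))
    rw [hr]
    exact Submodule.sum_mem _ fun k _ => Submodule.smul_mem _ _ (Submodule.subset_span ⟨k, rfl⟩)

/-- **The conjecture of Hodge type for the second factor implies it for the product.** -/
theorem hodge_prod_of (hS : ∀ z, AS W (X.prod U) z → z ∈ tens W X U) (tf : Lw W X D f)
    (hfX : IsHom (W.gr X) (-2) f) (hHLX : HardLefschetz W X D) (hf : Stable W X f)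
    (hHX : HodgeType W X D) (tg : Lw W U B g) (hgU : IsHom (W.gr U) (-2) g)
    (hHU : HodgeType W U B) :
    HodgeType W (X.prod U) (ops.pull (fst X U) D + ops.pull (snd X U) B) := by
  intro j hj z hz hprim hz0
  have F := tf.prod tg
  have hzA : AS W (X.prod U) (W.cl _ z) := AS.of ⟨z, hz, rfl⟩
  have hwt := wt_alg (W := W) hj ⟨z, hz, rfl⟩
  have h0 : extSum W f g (W.cl _ z) = 0 := by
    refine F.sl2.f_eq_zero hwt ?_
    rw [← cl_divPow]
    exact hprim
  have hc : extSum W (wt (W.isInternal X) X.dim) (wt (W.isInternal U) U.dim) (W.cl _ z) =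
      ((-(((X.prod U).dim - 2 * j : ℕ) : ℤ) : ℤ) : W.K) • W.cl _ z := by
    rw [← wt_prod, hwt]
    push_cast
    rfl
  obtain ⟨N, a, b, w, hab, hw, horth⟩ := exists_orthoFam tf hfX hHLX hf hHX
  have hrep := hab.rep (tens_le_span (hS _ hzA))
  have hdeep : ∀ i, Deep W U B g (coef W (b i) (W.cl (X.prod U) z)) := fun i =>
    deep_coef hS tf tg hf hzA h0 hc (hab.hb i)
  set y : Fin N → W.H U := fun i => coef W (b i) (W.cl (X.prod U) z) with hy
  have hpos : ∀ i, ∃ q : ℚ, 0 ≤ q ∧ (y i ≠ 0 → 0 < q) ∧ bf W U B g (y i) (y i) = q := by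
    intro i
    by_cases hyi : y i = 0
    · exact ⟨0, le_rfl, fun h => absurd hyi h, by rw [hyi]; simp⟩
    · obtain ⟨q, hq, hq'⟩ := tg.bf_pos hgU hHU (hdeep i) hyi
      exact ⟨q, hq.le, fun _ => hq, hq'⟩
  choose q hq0 hq1 hq2 using hpos
  have hval : bf W (X.prod U) (ops.pull (fst X U) D + ops.pull (snd X U) B) (extSum W f g)
      (W.cl _ z) (W.cl _ z) = ((∑ i, w i * q i : ℚ) : W.K) := by
    rw [hrep, map_sum]
    push_cast
    refine Finset.sum_congr rfl fun i _ => ?_
    rw [map_sum, LinearMap.sum_apply, Finset.sum_eq_single i]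
    · rw [tf.bf_ext tg, horth, if_pos rfl]
      change _ * bf W U B g (y i) (y i) = _
      rw [hq2]
    · intro l _ hl
      rw [tf.bf_ext tg, horth, if_neg hl, zero_mul]
    · intro h; exact absurd (Finset.mem_univ _) h
  rw [F.form_prim hj hz hprim] at hval
  have hval' := Rat.cast_injective (α := W.K) hval
  have hsum : 0 < ∑ i, w i * q i := by
    have hex : ∃ i, y i ≠ 0 := by
      by_contra hne
      push Not at hne
      apply hz0
      rw [hrep]
      refine Finset.sum_eq_zero fun i _ => ?_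
      change ext W (a i) (y i) = 0
      rw [hne i]
      simp [ext]
    obtain ⟨i, hi⟩ := hex
    exact Finset.sum_pos' (fun i _ => mul_nonneg (hw i).le (hq0 i))
      ⟨i, Finset.mem_univ _, mul_pos (hw i) (hq1 i hi)⟩
  rw [← hval', mul_left_comm] at hsum
  exact pos_of_mul_pos_right hsum (by positivity)

/-- The value of the form on the unit is positive. -/
lemma bf_one (tf : Lw W X D f) (hHX : HodgeType W X D) (h1 : (1 : W.H X) ≠ 0) :
    ∃ q : ℚ, 0 < q ∧ bf W X D f 1 1 = q := by
  have hp : W.cl X (divPow ops D (X.dim - 2 * 0 + 1) X.V.fundCycle) = 0 := by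
    rw [cl_divPow, W.cl_fund]
    exact e_pow_zero tf.hD (i := 0) (by omega) (W.one_mem X)
  have h2 := tf.form_prim (j := 0) (by omega) X.V.fundCycle_mem hp
  have h3 := hHX 0 (by omega) X.V.fundCycle X.V.fundCycle_mem hp (by rw [W.cl_fund]; exact h1)
  rw [W.cl_fund] at h2
  refine ⟨_, ?_, h2⟩
  rw [mul_left_comm]
  exact mul_pos (by positivity) h3

/-- **The conjecture of Hodge type for the product implies it for the second factor.** -/
theorem hodge_of_prod (tf : Lw W X D f) (tg : Lw W U B g) (hHX : HodgeType W X D)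
    (h1 : (1 : W.H X) ≠ 0)
    (hH : HodgeType W (X.prod U) (ops.pull (fst X U) D + ops.pull (snd X U) B)) :
    HodgeType W U B := by
  intro j hj z hz hprim hz0
  have F := tf.prod tg
  set y := ops.pull (snd X U) z with hy
  have hyc : (X.prod U).IsCyc j y := ops.pull_mem _ hz
  have hycl : W.cl (X.prod U) y = ext W (1 : W.H X) (W.cl U z) := by
    rw [hy, W.cl_pull, ext, map_one, one_mul]
  have hj' : 2 * j ≤ (X.prod U).dim := by rw [dim_prod]; omega
  have hDE : W.cl (X.prod U) (ops.pull (fst X U) D + ops.pull (snd X U) B) =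
      W.map (fst X U) (W.cl X D) + W.map (snd X U) (W.cl U B) := by
    rw [map_add, W.cl_pull, W.cl_pull]
  have hyp : W.cl (X.prod U) (divPow ops (ops.pull (fst X U) D + ops.pull (snd X U) B)
      ((X.prod U).dim - 2 * j + 1) y) = 0 := by
    rw [cl_divPow, hycl, theta_pow tg.hD hDE]
    refine Finset.sum_eq_zero fun i hi => ?_
    have hi' := Finset.mem_range.1 hi
    rw [dim_prod] at hi' ⊢
    by_cases h2 : X.dim < i
    · rw [e_pow_zero (W := W) tf.hD (i := 0) (by omega) (W.one_mem X)]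
      simp [ext]
    · rw [show X.dim + U.dim - 2 * j + 1 - i = (X.dim - i) + (U.dim - 2 * j + 1) by omega,
        pow_add, Module.End.mul_apply, ← cl_divPow, hprim, map_zero]
      simp [ext]
  have hy0 : W.cl (X.prod U) y ≠ 0 := by
    rw [hycl]
    intro h0
    exact hz0 (one_ext_inj h1 h0)
  obtain ⟨q, hq, hq'⟩ := bf_one tf hHX h1
  have h2 := F.form_prim hj' hyc hyp
  have h3 := hH j hj' y hyc hyp hy0
  rw [hycl, tf.bf_ext tg, hq', tg.form_prim hj hz hprim, ← Rat.cast_mul] at h2
  have h4 := Rat.cast_injective (α := W.K) h2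
  have h5 : 0 < q * ((-1) ^ j * (((U.dim - 2 * j).factorial : ℚ)⁻¹ *
        U.V.degCycle (ops.mul z (divPow ops B (U.dim - 2 * j) z)))) := by
    rw [h4, mul_left_comm]
    exact mul_pos (by positivity) h3
  have h6 := pos_of_mul_pos_right h5 hq.le
  rw [mul_left_comm] at h6
  exact pos_of_mul_pos_right h6 (by positivity)

end Pool.Agent.TH132.A
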