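import Pool.Agent.TH132.A.HLf

/-!
# Homological and numerical equivalence on products on which the cycles split
-/

set_option autoImplicit false

open CategoryTheory AlgebraicGeometry
open scoped TensorProduct

universe u v

namespace Pool.Agent.TH132.A

open Pool.Agent.H914 Pool.Agent.H914.VarClass Pool.Agent.H914.VarClass.Obj
  Pool.Agent.H914.WeilCohomology Pool.Agent.H281R3.HT Pool.Agent.W552

variable {k : Type u} [Field k] {𝒱 : VarClass k} {ops : CycleOps 𝒱}
  {W : WeilCohomology.{u, v} ops} {X U : 𝒱.Obj}

lemma homEqNum_iff : HomEqNum W X ↔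
    ∀ x, AS W X x → (∀ y, AS W X y → W.tr X (x * y) = 0) → x = 0 := by
  constructor
  · intro h x hx h0
    exact AS_zero_of_pair h hx h0
  · intro h j hj z hz hnum
    refine h _ (AS.of ⟨z, hz, rfl⟩) fun y hy => ?_
    refine AS.ind (p := fun y => W.tr X (W.cl X z * y) = 0) ?_ ?_ hy
    · rintro i _ ⟨w, hw, rfl⟩
      by_cases hi : j + i = X.dim
      · have h1 := ops.mul_mem hz hw
        rw [hi] at h1
        rw [← W.cl_mul, W.tr_cl h1, hnum w (by rwa [show X.dim - j = i by omega]), Rat.cast_zero]
      · exact W.tr_eq_zero (W.mul_mem (W.cl_mem hz) (W.cl_mem hw)) (by omega)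
    · intro a b ha hb
      rw [mul_add, map_add, ha, hb, add_zero]

/-- The pairing of a coefficient. -/
lemma tr_coef (b : W.H X) (z : W.H (X.prod U)) (y : W.H U) :
    W.tr U (coef W b z * y) = W.tr (X.prod U) (z * ext W b y) := by
  rw [coef, W.tr_push, ext, mul_assoc]

/-- **The conjecture `D` for `X × U` is equivalent to the conjecture `D` for `U`** if the cycles
on `X × U` split and the conjecture `D` holds for `X`. -/
theorem homEqNum_prod_iff (hS : ∀ z, AS W (X.prod U) z → z ∈ tens W X U) (hDX : HomEqNum W X)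
    (h1 : (1 : W.H X) ≠ 0) : HomEqNum W (X.prod U) ↔ HomEqNum W U := by
  rw [homEqNum_iff, homEqNum_iff]
  constructor
  · intro h y hy h0
    refine one_ext_inj (X := X) h1 (h _ (AS.one.ext hy) fun w hw => ?_)
    have h2 := hS w hw
    clear hw
    induction h2 using AddSubmonoid.closure_induction with
    | mem w hw =>
      obtain ⟨x, y', hx, hy', rfl⟩ := hw
      rw [ext, ext, map_one, one_mul, ← mul_assoc, ← (hx.map (fst X U)).comm, mul_assoc,
        ← map_mul, W.tr_prod, h0 y' hy', mul_zero]
    | zero => rw [mul_zero, map_zero]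
    | add x y _ _ hx hy => rw [mul_add, map_add, hx, hy, add_zero]
  · intro h z hz h0
    obtain ⟨N, a, b, hab⟩ := exists_dualFam hDX
    rw [hab.rep (tens_le_span (hS z hz))]
    refine Finset.sum_eq_zero fun i _ => ?_
    have h2 : coef W (b i) z = 0 := by
      refine h _ (coef_AS (hab.hb i) hz) fun y hy => ?_
      rw [tr_coef]
      exact h0 _ ((hab.hb i).ext hy)
    rw [h2]
    simp [ext]

end Pool.Agent.TH132.A
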