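import Pool.Agent.TH132.A.Num
import Pool.Agent.H447R3.DegDefs

/-!
# Homological and numerical equivalence in one codimension on products on which the cycles split
-/

set_option autoImplicit false

open CategoryTheory AlgebraicGeometry
open scoped TensorProduct

universe u v

namespace Pool.Agent.TH132.A

open Pool.Agent.H914 Pool.Agent.H914.VarClass Pool.Agent.H914.VarClass.Obj
  Pool.Agent.H914.WeilCohomology Pool.Agent.H281R3.HT Pool.Agent.W552 Pool.Agent.H447

variable {k : Type u} [Field k] {𝒱 : VarClass k} {ops : CycleOps 𝒱}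
  {W : WeilCohomology.{u, v} ops} {X U : 𝒱.Obj}

lemma coef_add (b b' : W.H X) (z : W.H (X.prod U)) :
    coef W (b + b') z = coef W b z + coef W b' z := by
  rw [coef, coef, coef, map_add, mul_add, map_add]

lemma coef_zero (z : W.H (X.prod U)) : coef W (0 : W.H X) z = 0 := by
  rw [coef, map_zero, mul_zero, map_zero]

/-- Numerically trivial cycles are orthogonal to all sums of algebraic classes. -/
lemma tr_of_num {j : ℕ} {z : X.Cycles} (hz : X.IsCyc j z)
    (h : ∀ w, X.IsCyc (X.dim - j) w → X.V.degCycle (ops.mul z w) = 0) {y : W.H X}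
    (hy : AS W X y) : W.tr X (W.cl X z * y) = 0 := by
  refine AS.ind (p := fun y => W.tr X (W.cl X z * y) = 0) ?_ ?_ hy
  · rintro i _ ⟨w, hw, rfl⟩
    by_cases hi : j + i = X.dim
    · have h1 := ops.mul_mem hz hw
      rw [hi] at h1
      rw [← W.cl_mul, W.tr_cl h1, h w (by rwa [show X.dim - j = i by omega]), Rat.cast_zero]
    · exact W.tr_eq_zero (W.mul_mem (W.cl_mem hz) (W.cl_mem hw)) (by omega)
  · intro a b ha hb
    rw [mul_add, map_add, ha, hb, add_zero]

/-- A nonzero algebraic class has a partner. -/
lemma exists_partner (hDX : HomEqNum W X) {i : ℕ} {b : W.H X} (hb : b ∈ algClasses W X i)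
    (h0 : b ≠ 0) : i ≤ X.dim ∧ ∃ x ∈ algClasses W X (X.dim - i), W.tr X (b * x) ≠ 0 := by
  have hi : i ≤ X.dim := by
    by_contra hlt
    apply h0
    have h1 := alg_gr hb
    rw [W.gr_eq_bot X _ (by omega)] at h1
    exact (Submodule.mem_bot _).1 h1
  refine ⟨hi, ?_⟩
  by_contra hne
  push Not at hne
  exact h0 (eq_zero_of_D hDX hi hb hne)

/-- **The conjecture `D` in codimension `c` for `X × U`** if the cycles on `X × U` split and the
conjecture `D` holds for `X`. -/
theorem homEqNumIn_prod_iff (hS : ∀ z, AS W (X.prod U) z → z ∈ tens W X U)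
    (hDX : HomEqNum W X) {c : ℕ} (hc : c ≤ (X.prod U).dim) : HomEqNumIn W (X.prod U) c ↔
      ∀ i ≤ c, (∃ x, X.IsCyc i x ∧ ¬ HomEq W x 0) → HomEqNumIn W U (c - i) := by
  constructor
  · rintro h i hi ⟨x₀, hx₀, hne⟩ y hy hnum
    rw [HomEq, map_zero] at hne
    obtain ⟨-, x', hx', htr⟩ := exists_partner hDX ⟨x₀, hx₀, rfl⟩ hne
    have hz := ops.mul_mem (ops.pull_mem (fst X U) hx₀) (ops.pull_mem (snd X U) hy)
    rw [show i + (c - i) = c by omega] at hz
    have hcz : W.cl _ (ops.mul (ops.pull (fst X U) x₀) (ops.pull (snd X U) y)) =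
        ext W (W.cl X x₀) (W.cl U y) := by
      rw [W.cl_mul, W.cl_pull, W.cl_pull]
      rfl
    have h1 := h _ hz (by
      intro w hw
      have h2 := ops.mul_mem hz hw
      rw [show c + ((X.prod U).dim - c) = (X.prod U).dim by omega] at h2
      have h3 := W.tr_cl h2
      rw [W.cl_mul, hcz] at h3
      have h4 := hS _ (AS.of ⟨w, hw, rfl⟩)
      have h5 : W.tr _ (ext W (W.cl X x₀) (W.cl U y) * W.cl _ w) = 0 := by
        clear h3 h2 hw
        generalize W.cl _ w = t at h4
        induction h4 using AddSubmonoid.closure_induction with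
        | mem t ht =>
          obtain ⟨a, b, ha, hb, rfl⟩ := ht
          have e : ext W (W.cl X x₀) (W.cl U y) * ext W a b =
              W.map (fst X U) (W.cl X x₀ * a) * W.map (snd X U) (W.cl U y * b) := by
            have h6 := (ha.map (fst X U)).comm (W.map (snd X U) (W.cl U y))
            rw [ext, ext, map_mul, map_mul]
            calc W.map (fst X U) (W.cl X x₀) * W.map (snd X U) (W.cl U y) *
                  (W.map (fst X U) a * W.map (snd X U) b)
                = W.map (fst X U) (W.cl X x₀) * (W.map (snd X U) (W.cl U y) *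
                  W.map (fst X U) a) * W.map (snd X U) b := by simp only [mul_assoc]
              _ = W.map (fst X U) (W.cl X x₀) * (W.map (fst X U) a *
                  W.map (snd X U) (W.cl U y)) * W.map (snd X U) b := by rw [h6]
              _ = _ := by simp only [mul_assoc]
          rw [e, W.tr_prod, tr_of_num hy hnum hb, mul_zero]
        | zero => rw [mul_zero, map_zero]
        | add a b _ _ ha hb => rw [mul_add, map_add, ha, hb, add_zero]
      rw [h5] at h3
      exact_mod_cast h3.symm)
    rw [hcz] at h1
    have h2 : coef W x' (ext W (W.cl X x₀) (W.cl U y)) = W.tr X (W.cl X x₀ * x') • W.cl U y := by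
      rw [coef, ext, mul_assoc, ← ((AS.of hx').map (fst X U)).comm (W.map (snd X U) (W.cl U y)),
        ← mul_assoc, ← map_mul, W.push_snd]
    rw [h1] at h2
    rw [coef, zero_mul, map_zero] at h2
    exact (smul_eq_zero.1 h2.symm).resolve_left htr
  · intro h z hz hnum
    have hzc : W.cl _ z ∈ algClasses W (X.prod U) c := ⟨z, hz, rfl⟩
    have key : ∀ b, AS W X b → coef W b (W.cl (X.prod U) z) = 0 := by
      intro b hb
      refine AS.ind (p := fun b => coef W b (W.cl (X.prod U) z) = 0) ?_ ?_ hb
      · intro j b hb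
        by_cases hb0 : b = 0
        · rw [hb0, coef_zero]
        obtain ⟨hj, x, hx, htr⟩ := exists_partner hDX hb hb0
        have hx0 : x ≠ 0 := by
          rintro rfl
          rw [mul_zero, map_zero] at htr
          exact htr rfl
        have hp : W.cl _ z * W.map (fst X U) b ∈ algClasses W (X.prod U) (c + j) :=
          alg_mul hzc (alg_map _ hb)
        by_cases hcj : X.dim ≤ c + j
        · have hy : coef W b (W.cl _ z) ∈ algClasses W U (c - (X.dim - j)) :=
            alg_push (snd X U) hp (by rw [dim_prod]; omega)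
          by_cases hcn : c - (X.dim - j) ≤ U.dim
          · obtain ⟨x₀, hx₀, rfl⟩ := hx
            obtain ⟨u, hu, hue⟩ := hy
            rw [← hue]
            refine h (X.dim - j) (by omega) ⟨x₀, hx₀, by rw [HomEq, map_zero]; exact hx0⟩ u hu ?_
            intro w hw
            have h2 := ops.mul_mem hu hw
            rw [show c - (X.dim - j) + (U.dim - (c - (X.dim - j))) = U.dim by omega] at h2
            have h3 := W.tr_cl h2
            rw [W.cl_mul, hue, tr_coef] at h3
            have h4 : W.tr _ (W.cl _ z * ext W b (W.cl U w)) = 0 :=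
              tr_of_num hz hnum ((AS.of hb).ext (AS.of ⟨w, hw, rfl⟩))
            rw [h4] at h3
            exact_mod_cast h3.symm
          · have h1 := alg_gr hy
            rw [W.gr_eq_bot U _ (by omega)] at h1
            exact (Submodule.mem_bot _).1 h1
        · exact alg_push_zero hp (by rw [dim_prod]; omega)
      · intro a b ha hb
        rw [coef_add, ha, hb, add_zero]
    obtain ⟨N, a, b, hab⟩ := exists_dualFam hDX
    rw [hab.rep (tens_le_span (hS _ (AS.of hzc)))]
    refine Finset.sum_eq_zero fun i _ => ?_
    rw [key _ (hab.hb i)]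
    simp [ext]

end Pool.Agent.TH132.A
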