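import Pool.Agent.TH132.A.Low
import Pool.Agent.TH132.A.Defs
import Pool.Agent.TH132.A.Dual
import Pool.Agent.H281R3.HT.Mid

/-!
# Products on which all algebraic classes are combinations of products
-/

set_option autoImplicit false

open CategoryTheory AlgebraicGeometry

universe u v

namespace Pool.Agent.TH132.A

open Pool.Agent.H914 Pool.Agent.H914.VarClass Pool.Agent.H914.VarClass.Obj
  Pool.Agent.H914.WeilCohomology Pool.Agent.H281R3.HT Pool.Agent.W552

variable {k : Type u} [Field k] {𝒱 : VarClass k} {ops : CycleOps 𝒱}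
  {W : WeilCohomology.{u, v} ops} {X U : 𝒱.Obj}

/-- The class of each cycle of codimension `c` on `X × U` is a sum of classes of cycles `x × y`
with `x` a cycle of codimension `i` on `X`, `y` a cycle of codimension `j` on `U`, and
`i + j = c`. -/
def ClSplit (W : WeilCohomology.{u, v} ops) (X U : 𝒱.Obj) : Prop :=
  ∀ c z, (X.prod U).IsCyc c z → W.cl (X.prod U) z ∈ AddSubmonoid.closure
    {w | ∃ (i j : ℕ) (x : X.Cycles) (y : U.Cycles), i + j = c ∧ X.IsCyc i x ∧ U.IsCyc j y ∧
      w = W.cl (X.prod U) (ops.mul (ops.pull (fst X U) x) (ops.pull (snd X U) y))}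

lemma ClSplit.cyclesSplit (h : ClSplit W X U) : CyclesSplit W X U := by
  intro c z hz
  have h1 := h c z hz
  unfold HomEq
  generalize W.cl (X.prod U) z = t at h1
  induction h1 using AddSubmonoid.closure_induction with
  | mem w hw =>
    obtain ⟨i, j, x, y, hij, hx, hy, rfl⟩ := hw
    refine ⟨[_], by rw [List.sum_singleton], ?_⟩
    intro w hw
    rw [List.mem_singleton] at hw
    exact ⟨i, j, x, y, hij, hx, hy, hw⟩
  | zero => exact ⟨[], by rw [List.sum_nil, map_zero], fun w hw => absurd hw List.not_mem_nil⟩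
  | add x y _ _ hx hy =>
    obtain ⟨l, rfl, hl⟩ := hx
    obtain ⟨l', rfl, hl'⟩ := hy
    refine ⟨l ++ l', by rw [List.sum_append, map_add], fun w hw => ?_⟩
    rcases List.mem_append.1 hw with h2 | h2
    · exact hl w h2
    · exact hl' w h2

/-- The sums of products of algebraic classes. -/
noncomputable def tens (W : WeilCohomology.{u, v} ops) (X U : 𝒱.Obj) : AddSubmonoid (W.H (X.prod U)) :=
  AddSubmonoid.closure {w | ∃ x y, AS W X x ∧ AS W U y ∧ w = ext W x y}

lemma AS_zero_of_pair (hDX : HomEqNum W X) {x : W.H X} (hx : AS W X x)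
    (h0 : ∀ y, AS W X y → W.tr X (x * y) = 0) : x = 0 := by
  rw [Fr.AS_sum hx]
  refine Finset.sum_eq_zero fun j hj => ?_
  have hj' : j ≤ X.dim := by
    have := Finset.mem_range.1 hj
    omega
  refine eq_zero_of_D hDX hj' (hx.proj j) fun d hd => ?_
  rw [← h0 d (AS.of hd)]
  refine gr_induction (W.isInternal X) (p := fun x =>
    W.tr X (proj (W.isInternal X) (2 * j) x * d) = W.tr X (x * d)) ?_ ?_ x
  · intro l b hb
    by_cases hl : l = 2 * j
    · subst hl; rw [proj_same _ hb]
    · rw [proj_ne _ hb hl, zero_mul, map_zero,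
        W.tr_eq_zero (W.mul_mem hb (alg_gr hd)) (by omega)]
  · intro a b ha hb
    rw [map_add, add_mul, map_add, ha, hb, add_mul, map_add]

/-- Dual families of sums of algebraic classes. -/
structure DualFam (W : WeilCohomology.{u, v} ops) (X : 𝒱.Obj) {N : ℕ} (a b : Fin N → W.H X) :
    Prop where
  ha : ∀ i, AS W X (a i)
  hb : ∀ i, AS W X (b i)
  dual : ∀ i j, W.tr X (a i * b j) = if i = j then 1 else 0
  span : ∀ x, AS W X x → x ∈ Submodule.span W.K (Set.range a)

lemma exists_dualFam (hDX : HomEqNum W X) : ∃ (N : ℕ) (a b : Fin N → W.H X),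
    DualFam W X a b := by
  obtain ⟨N, a, b, ha, hb, hab, hspan⟩ := exists_dual (AS.ratSub (W := W) (X := X)) (bil W X)
    (fun x y hx hy => by rw [bil_apply]; exact (hx.mul hy).tr)
    (fun x hx h0 => AS_zero_of_pair hDX hx fun y hy => by rw [← bil_apply]; exact h0 y hy)
  exact ⟨N, a, b, ha, hb, fun i j => by rw [← bil_apply]; exact hab i j, hspan⟩

/-- The coefficients of a class with respect to a dual family. -/
noncomputable def coef (W : WeilCohomology.{u, v} ops) {X U : 𝒱.Obj} (b : W.H X)
    (z : W.H (X.prod U)) : W.H U :=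
  W.push (snd X U) (z * W.map (fst X U) b)

lemma coef_AS {b : W.H X} (hb : AS W X b) {z : W.H (X.prod U)} (hz : AS W (X.prod U) z) :
    AS W U (coef W b z) := (hz.mul (hb.map _)).push _

lemma DualFam.rep {N : ℕ} {a b : Fin N → W.H X} (h : DualFam W X a b) {z : W.H (X.prod U)}
    (hs : z ∈ Submodule.span W.K {w | ∃ x y, AS W X x ∧ w = ext W x y}) :
    z = ∑ i, ext W (a i) (coef W (b i) z) := by
  classical
  have h1 : ∃ v : Fin N → W.H U, z = ∑ i, ext W (a i) (v i) := by
    induction hs using Submodule.span_induction with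
    | mem w hw =>
      obtain ⟨x, y, hx, rfl⟩ := hw
      obtain ⟨c, hc⟩ := (Submodule.mem_span_range_iff_exists_fun W.K).1 (h.span x hx)
      refine ⟨fun i => c i • y, ?_⟩
      rw [← hc]
      simp only [ext, map_sum, map_smul, Finset.sum_mul, smul_mul_assoc, mul_smul_comm]
    | zero => exact ⟨0, by simp [ext]⟩
    | add x y _ _ hx hy =>
      obtain ⟨v, rfl⟩ := hx
      obtain ⟨w, rfl⟩ := hy
      refine ⟨v + w, ?_⟩
      rw [← Finset.sum_add_distrib]
      refine Finset.sum_congr rfl fun i _ => ?_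
      simp only [ext, Pi.add_apply, map_add, mul_add]
    | smul c x _ hx =>
      obtain ⟨v, rfl⟩ := hx
      refine ⟨c • v, ?_⟩
      rw [Finset.smul_sum]
      refine Finset.sum_congr rfl fun i _ => ?_
      simp only [ext, Pi.smul_apply, map_smul, mul_smul_comm]
  obtain ⟨v, hv⟩ := h1
  have h2 : ∀ j, coef W (b j) z = v j := by
    intro j
    rw [coef, hv, Finset.sum_mul, map_sum, Finset.sum_eq_single j]
    · rw [ext, mul_assoc, ← ((h.hb j).map (fst X U)).comm (W.map (snd X U) (v j)), ← mul_assoc,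
        ← map_mul, W.push_snd, h.dual, if_pos rfl, one_smul]
    · intro i _ hij
      rw [ext, mul_assoc, ← ((h.hb j).map (fst X U)).comm (W.map (snd X U) (v i)), ← mul_assoc,
        ← map_mul, W.push_snd, h.dual, if_neg hij, zero_smul]
    · intro h0
      exact absurd (Finset.mem_univ _) h0
  conv_lhs => rw [hv]
  exact Finset.sum_congr rfl fun i _ => by rw [h2]

lemma tens_le_span {z : W.H (X.prod U)} (hz : z ∈ tens W X U) :
    z ∈ Submodule.span W.K {w | ∃ x y, AS W X x ∧ w = ext W x y} := by
  induction hz using AddSubmonoid.closure_induction with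
  | mem w hw =>
    obtain ⟨x, y, hx, -, rfl⟩ := hw
    exact Submodule.subset_span ⟨x, y, hx, rfl⟩
  | zero => exact Submodule.zero_mem _
  | add x y _ _ hx hy => exact Submodule.add_mem _ hx hy

/-- A sum of algebraic classes on `X × U` which is a `K`-combination of products of algebraic
classes on `X` and arbitrary classes on `U` is a sum of products of algebraic classes. -/
theorem mem_tens (hDX : HomEqNum W X) {z : W.H (X.prod U)} (hz : AS W (X.prod U) z)
    (hs : z ∈ Submodule.span W.K {w | ∃ x y, AS W X x ∧ w = ext W x y}) : z ∈ tens W X U := by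
  obtain ⟨N, a, b, h⟩ := exists_dualFam hDX
  rw [h.rep hs]
  exact AddSubmonoid.sum_mem _ fun i _ =>
    AddSubmonoid.subset_closure ⟨a i, _, h.ha i, coef_AS (h.hb i) hz, rfl⟩

/-- The splitting of the algebraic classes of all codimensions implies `ClSplit`. -/
lemma clSplit_of_tens (h : ∀ z, AS W (X.prod U) z → z ∈ tens W X U) : ClSplit W X U := by
  intro c z hz
  have hzc : W.cl _ z ∈ algClasses W (X.prod U) c := ⟨z, hz, rfl⟩
  have h1 := h _ (AS.of hzc)
  rw [← proj_same (W.isInternal (X.prod U)) (alg_gr hzc)]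
  clear hz hzc
  generalize W.cl _ z = t at h1
  induction h1 using AddSubmonoid.closure_induction with
  | zero => rw [map_zero]; exact AddSubmonoid.zero_mem _
  | add x y _ _ hx hy => rw [map_add]; exact AddSubmonoid.add_mem _ hx hy
  | mem w hw =>
    obtain ⟨x, y, hx, hy, rfl⟩ := hw
    refine AS.ind (p := fun x => proj (W.isInternal (X.prod U)) (2 * c) (ext W x y) ∈ _)
      ?_ ?_ hx
    · intro i x hx
      refine AS.ind (p := fun y => proj (W.isInternal (X.prod U)) (2 * c) (ext W x y) ∈ _)
        ?_ ?_ hy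
      · intro j y hy
        have hxy : ext W x y ∈ W.gr (X.prod U) (2 * (i + j)) := by
          have := W.mul_mem (W.map_mem (fst X U) (alg_gr hx)) (W.map_mem (snd X U) (alg_gr hy))
          rwa [← mul_add] at this
        by_cases hij : i + j = c
        · rw [← hij, proj_same _ hxy]
          obtain ⟨x', hx', rfl⟩ := hx
          obtain ⟨y', hy', rfl⟩ := hy
          exact AddSubmonoid.subset_closure ⟨i, j, x', y', rfl, hx', hy', by
            rw [W.cl_mul, W.cl_pull, W.cl_pull]; rfl⟩
        · rw [proj_ne _ hxy (by omega)]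
          exact AddSubmonoid.zero_mem _
      · intro y y' hy hy'
        rw [show ext W x (y + y') = ext W x y + ext W x y' by simp only [ext, map_add, mul_add],
          map_add]
        exact AddSubmonoid.add_mem _ hy hy'
    · intro x x' hx hx'
      rw [show ext W (x + x') y = ext W x y + ext W x' y by simp only [ext, map_add, add_mul],
        map_add]
      exact AddSubmonoid.add_mem _ hx hx'

lemma tens_of_clSplit (h : ClSplit W X U) {z : W.H (X.prod U)}
    (hz : AS W (X.prod U) z) : z ∈ tens W X U := by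
  refine AS.ind (p := fun z => z ∈ tens W X U) ?_
    (fun x y hx hy => AddSubmonoid.add_mem _ hx hy) hz
  rintro c _ ⟨z, hz, rfl⟩
  refine AddSubmonoid.closure_le.2 ?_ (h c z hz)
  rintro _ ⟨i, j, x, y, -, hx, hy, rfl⟩
  refine AddSubmonoid.subset_closure ⟨W.cl X x, W.cl U y, AS.of ⟨x, hx, rfl⟩,
    AS.of ⟨y, hy, rfl⟩, ?_⟩
  rw [W.cl_mul, W.cl_pull, W.cl_pull]
  rfl

section

variable {D : X.Cycles} {E : U.Cycles} {f : Module.End W.K (W.H X)} {g : Module.End W.K (W.H U)}

lemma low_prod (hE : U.IsCyc 1 E) (tf : Low W X D f) (tg : Low W U E g) :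
    Low W (X.prod U) (ops.pull (fst X U) D + ops.pull (snd X U) E) (extSum W f g) := by
  rw [Low, wt_prod, mulLeft_prod hE]
  exact sl2_prod tf tg

/-- The lowering operator kills `1`. -/
lemma low_one (hD : X.IsCyc 1 D) (tf : Low W X D f) : f 1 = 0 := by
  refine Sl2.f_eq_zero tf (M := X.dim) ?_ ?_
  · have := wt_alg (W := W) (X := X) (i := 0) (by omega) alg_one
    rwa [Nat.mul_zero, Nat.sub_zero] at this
  · have h1 := alg_gr (e_pow_alg (W := W) hD (X.dim + 1) (alg_one (W := W) (X := X)))
    rw [W.gr_eq_bot X _ (by omega)] at h1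
    exact (Submodule.mem_bot _).1 h1

/-- **The conjecture A for the product from the conjecture A for the factors.** -/
theorem stable_prod (hS : ∀ z, AS W (X.prod U) z → z ∈ tens W X U) (hf : Stable W X f)
    (hg : Stable W U g) : Stable W (X.prod U) (extSum W f g) := by
  intro z hz
  have h1 := hS z hz
  clear hz
  induction h1 using AddSubmonoid.closure_induction with
  | zero => rw [map_zero]; exact AS.zero
  | add x y _ _ hx hy => rw [map_add]; exact hx.add hy
  | mem w hw =>
    obtain ⟨x, y, hx, hy, rfl⟩ := hw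
    rw [ext, extSum_tmul]
    exact ((hf x hx).ext hy).add (hx.ext (hg y hy))

/-- **The conjecture A for a factor from the conjecture A for the product.** -/
theorem stable_factor (hD : X.IsCyc 1 D) (tf : Low W X D f) (hX : ∃ τ, AS W X τ ∧ W.tr X τ = 1)
    (h : Stable W (X.prod U) (extSum W f g)) : Stable W U g := by
  intro y hy
  obtain ⟨τ, hτ, hτ1⟩ := hX
  have h1 := h _ (AS.one.ext (X := X) hy)
  rw [ext, extSum_tmul, low_one hD tf, map_zero, zero_mul, zero_add, map_one, one_mul] at h1
  have h2 := ((hτ.map (fst X U)).mul h1).push (snd X U)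
  rw [W.push_snd, hτ1, one_smul] at h2
  exact h2

end

lemma exists_point {D : X.Cycles} (hD : X.IsCyc 1 D) (hHL : HardLefschetz W X D)
    (h1 : (1 : W.H X) ≠ 0) : ∃ τ, AS W X τ ∧ W.tr X τ = 1 := by
  obtain ⟨b, hb, hb0⟩ := exists_top hD hHL h1
  obtain ⟨q, hq⟩ := (AS.of hb).tr
  have hq0 : q ≠ 0 := by
    rintro rfl
    exact hb0 (by rw [hq, Rat.cast_zero])
  refine ⟨((q⁻¹ : ℚ) : W.K) • b, (AS.of hb).smul _, ?_⟩
  rw [map_smul, hq, smul_eq_mul, ← Rat.cast_mul, inv_mul_cancel₀ hq0, Rat.cast_one]

/-- **The conjecture A for `X × U` is equivalent to the conjecture A for `U`** if the cycles on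
`X × U` split and the conjecture A holds for `X`. -/
theorem lefschetzA_prod_iff (hS : ClSplit W X U) {D : X.Cycles} {E : U.Cycles}
    {C : (X.prod U).Cycles} (hD : X.IsCyc 1 D) (hE : U.IsCyc 1 E) (hC : (X.prod U).IsCyc 1 C)
    (hDE : W.cl _ C = W.map (fst X U) (W.cl X D) + W.map (snd X U) (W.cl U E))
    (hHX : HardLefschetz W X D) (hHU : HardLefschetz W U E) (hA : LefschetzA W X D)
    (h1 : (1 : W.H X) ≠ 0) : LefschetzA W (X.prod U) C ↔ LefschetzA W U E := by
  obtain ⟨f, tf⟩ := exists_low hD hHX
  obtain ⟨g, tg⟩ := exists_low hE hHU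
  have t := low_prod hE tf tg
  have hC' : (X.prod U).IsCyc 1 (ops.pull (fst X U) D + ops.pull (snd X U) E) :=
    SmVar.IsCyc.add (ops.pull_mem _ hD) (ops.pull_mem _ hE)
  have e : W.cl _ C = W.cl _ (ops.pull (fst X U) D + ops.pull (snd X U) E) := by
    rw [hDE, map_add, W.cl_pull, W.cl_pull]
  have h2 : Low W (X.prod U) C (extSum W f g) := by
    rw [Low, e]
    exact t
  rw [← stable_iff hC h2, ← stable_iff hE tg]
  constructor
  · exact stable_factor hD tf (exists_point hD hHX h1)
  · exact stable_prod (fun z hz => tens_of_clSplit hS hz) (stable_of_lefschetzA hD tf hA)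

end Pool.Agent.TH132.A
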